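import Pool.Agent.H20.SXA.Defs
import Pool.Agent.H20.SX.Blow

/-!
# The tower of `M_r(C)`, layers of any type

As `Pool.Agent.H20.SX.Blow`, with one more case.
-/

open Module

open scoped Fin.NatCast Fin.CommRing

namespace Pool.Agent.H20.SXA

open Pool.Agent.H78.TT Pool.Agent.H72.TW Pool.Agent.H20.SX

variable {k Ω : Type*} [Field k] [Field Ω] [Algebra k Ω] {n d : ℕ}

private theorem towA_ind {θ : Fin d → Ω} {m r : ℕ} {c : Fin d → Ω} (hT : TowA k θ m c) :
    ∃ B : Set Ω, B.Finite ∧ ∀ (κ : Fin r → k), (∀ s s', s ≠ s' →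
      algebraMap k Ω (κ s) - algebraMap k Ω (κ s') ∉ B) → ∀ ε : Fin n ≃ Fin r × Fin d,
      (∀ F : Fin r → Fin d → Ω, (∀ s, R1 θ (⊥ : IntermediateField k Ω) (F s)) →
        R1 (fun j => algebraMap k Ω (κ (ε j).1) + θ (ε j).2) (⊥ : IntermediateField k Ω)
          (fun j => F (ε j).1 (ε j).2)) →
      TowA k (fun j => algebraMap k Ω (κ (ε j).1) + θ (ε j).2) m
        (fun j => algebraMap k Ω (κ (ε j).1) + c (ε j).2) := by
  induction hT with
  | @top c hc =>
    refine ⟨Set.range fun p : Fin d × Fin d => c p.1 - c p.2, Set.finite_range _, ?_⟩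
    intro κ hκ ε _
    apply TowA.top
    intro i j hij
    have h1 : (ε i).1 = (ε j).1 := by
      by_contra h
      refine hκ _ _ h ⟨((ε j).2, (ε i).2), ?_⟩
      simp only at hij ⊢
      linear_combination -hij
    have h2 : (ε i).2 = (ε j).2 := by
      apply hc
      simp only [h1] at hij
      exact add_left_cancel hij
    exact ε.injective (Prod.ext h1 h2)
  | @step c c' S q hL hq hc hT ih =>
    obtain ⟨B, hB, H⟩ := ih
    refine ⟨B ∪ ((Set.range fun p : Fin d × Fin d => c p.1 - c p.2) ∪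
      (Set.range fun p : Fin d × Fin d => c' p.1 - c' p.2)),
      hB.union ((Set.finite_range _).union (Set.finite_range _)), ?_⟩
    intro κ hκ ε hF
    have hcst : ∀ s : Fin r, R1 θ (⊥ : IntermediateField k Ω) (fun _ => algebraMap k Ω (κ s)) :=
      fun s => isR_const _ ((⊥ : IntermediateField k Ω).algebraMap_mem _)
    have e1 : ∀ i j, algebraMap k Ω (κ (ε i).1) + c (ε i).2 =
        algebraMap k Ω (κ (ε j).1) + c (ε j).2 → (ε i).1 = (ε j).1 ∧ c (ε i).2 = c (ε j).2 := by
      intro i j hij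
      have h1 : (ε i).1 = (ε j).1 := by
        by_contra h
        refine hκ _ _ h (Or.inr (Or.inl ⟨((ε j).2, (ε i).2), ?_⟩))
        simp only
        linear_combination -hij
      exact ⟨h1, add_left_cancel (by simpa only [h1] using hij)⟩
    have e2 : ∀ i j, algebraMap k Ω (κ (ε i).1) + c' (ε i).2 =
        algebraMap k Ω (κ (ε j).1) + c' (ε j).2 → (ε i).1 = (ε j).1 ∧ c' (ε i).2 = c' (ε j).2 := by
      intro i j hij
      have h1 : (ε i).1 = (ε j).1 := by
        by_contra h
        refine hκ _ _ h (Or.inr (Or.inr ⟨((ε j).2, (ε i).2), ?_⟩))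
        simp only
        linear_combination -hij
      exact ⟨h1, add_left_cancel (by simpa only [h1] using hij)⟩
    let S' : Fin n → Fin n := fun j => ε.symm ((ε j).1, S (ε j).2)
    have hS' : ∀ j, ε (S' j) = ((ε j).1, S (ε j).2) := fun j => ε.apply_symm_apply _
    have hit : ∀ (t : ℕ) (j : Fin n), ε (S'^[t] j) = ((ε j).1, S^[t] (ε j).2) := by
      intro t
      induction t with
      | zero => intro j; rfl
      | succ t iht =>
        intro j
        rw [Function.iterate_succ_apply', hS', iht, Function.iterate_succ_apply']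
    refine TowA.step (c' := fun j => algebraMap k Ω (κ (ε j).1) + c' (ε j).2) (S := S') (d := q)
      ⟨?_, ?_, ?_, ?_, ?_, ?_, ?_⟩ hq ?_ (H κ (fun s s' h h1 => hκ s s' h (Or.inl h1)) ε hF)
    · exact hF (fun s e => algebraMap k Ω (κ s) + c' e) fun s => (hcst s).add hL.rat
    · have h1 := hF (fun s e => algebraMap k Ω (κ s) + c' (S e)) fun s => (hcst s).add hL.ratS
      refine IsR.congr h1 fun x => ?_
      simp only [hS']
    · intro i j hij
      obtain ⟨h1, h2⟩ := e2 i j hij
      rw [h1, hL.fine _ _ h2]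
    · intro i j hij
      obtain ⟨h1, h2⟩ := e2 i j hij
      change algebraMap k Ω (κ (ε (S' i)).1) + c' (ε (S' i)).2 =
        algebraMap k Ω (κ (ε (S' j)).1) + c' (ε (S' j)).2
      rw [hS', hS']
      simp only
      rw [h1, hL.shift _ _ h2]
    · intro i
      change algebraMap k Ω (κ (ε (S' i)).1) + c (ε (S' i)).2 = _
      rw [hS']
      simp only
      rw [hL.coarse]
    · intro i
      change algebraMap k Ω (κ (ε (S'^[q] i)).1) + c' (ε (S'^[q] i)).2 = _
      rw [hit]
      simp only
      rw [hL.per]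
    · intro i j hij
      obtain ⟨h1, h2⟩ := e1 i j hij
      obtain ⟨t, ht, h3⟩ := hL.trans _ _ h2
      refine ⟨t, ht, ?_⟩
      change _ = algebraMap k Ω (κ (ε (S'^[t] i)).1) + c' (ε (S'^[t] i)).2
      rw [hit]
      simp only
      rw [h3, h1]
    · exact hF (fun s e => algebraMap k Ω (κ s) + c e) fun s => (hcst s).add hc
  | @any c c' q hL hq hc hT ih =>
    obtain ⟨B, hB, H⟩ := ih
    refine ⟨B ∪ ((Set.range fun p : Fin d × Fin d => c p.1 - c p.2) ∪
      (Set.range fun p : Fin d × Fin d => c' p.1 - c' p.2)),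
      hB.union ((Set.finite_range _).union (Set.finite_range _)), ?_⟩
    intro κ hκ ε hF
    have hcst : ∀ s : Fin r, R1 θ (⊥ : IntermediateField k Ω) (fun _ => algebraMap k Ω (κ s)) :=
      fun s => isR_const _ ((⊥ : IntermediateField k Ω).algebraMap_mem _)
    have e1 : ∀ i j, algebraMap k Ω (κ (ε i).1) + c (ε i).2 =
        algebraMap k Ω (κ (ε j).1) + c (ε j).2 → (ε i).1 = (ε j).1 ∧ c (ε i).2 = c (ε j).2 := by
      intro i j hij
      have h1 : (ε i).1 = (ε j).1 := by
        by_contra h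
        refine hκ _ _ h (Or.inr (Or.inl ⟨((ε j).2, (ε i).2), ?_⟩))
        simp only
        linear_combination -hij
      exact ⟨h1, add_left_cancel (by simpa only [h1] using hij)⟩
    have e2 : ∀ i j, algebraMap k Ω (κ (ε i).1) + c' (ε i).2 =
        algebraMap k Ω (κ (ε j).1) + c' (ε j).2 → (ε i).1 = (ε j).1 ∧ c' (ε i).2 = c' (ε j).2 := by
      intro i j hij
      have h1 : (ε i).1 = (ε j).1 := by
        by_contra h
        refine hκ _ _ h (Or.inr (Or.inr ⟨((ε j).2, (ε i).2), ?_⟩))
        simp only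
        linear_combination -hij
      exact ⟨h1, add_left_cancel (by simpa only [h1] using hij)⟩
    refine TowA.any (c' := fun j => algebraMap k Ω (κ (ε j).1) + c' (ε j).2) (d := q)
      ⟨?_, ?_, ?_⟩ hq ?_ (H κ (fun s s' h h1 => hκ s s' h (Or.inl h1)) ε hF)
    · exact hF (fun s e => algebraMap k Ω (κ s) + c' e) fun s => (hcst s).add hL.rat
    · intro i j hij
      obtain ⟨h1, h2⟩ := e2 i j hij
      rw [h1, hL.fine _ _ h2]
    · intro i
      have h1 : (fun j => algebraMap k Ω (κ (ε j).1) + c' (ε j).2) ''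
          {l | algebraMap k Ω (κ (ε l).1) + c (ε l).2 =
            algebraMap k Ω (κ (ε i).1) + c (ε i).2} =
          (fun y => algebraMap k Ω (κ (ε i).1) + y) '' (c' '' {e | c e = c (ε i).2}) := by
        ext y
        constructor
        · rintro ⟨l, hl, rfl⟩
          obtain ⟨h2, h3⟩ := e1 l i hl
          exact ⟨c' (ε l).2, ⟨(ε l).2, h3, rfl⟩, by simp only; rw [h2]⟩
        · rintro ⟨_, ⟨e, he, rfl⟩, rfl⟩
          have he' : c e = c (ε i).2 := he
          refine ⟨ε.symm ((ε i).1, e), ?_, ?_⟩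
          · change algebraMap k Ω (κ (ε (ε.symm ((ε i).1, e))).1) +
              c (ε (ε.symm ((ε i).1, e))).2 = _
            rw [Equiv.apply_symm_apply]
            simp only
            rw [he']
          · simp only [Equiv.apply_symm_apply]
      rw [h1, Set.ncard_image_of_injective _ (add_right_injective _)]
      exact hL.card _
    · exact hF (fun s e => algebraMap k Ω (κ s) + c e) fun s => (hcst s).add hc

theorem towA_blow {θ : Fin d → Ω} (hp : Pol k θ) (hθ : Function.Injective θ) {m r : ℕ}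
    (hr : m.Coprime r) (hT : TowA k θ m (fun _ => 0)) :
    ∃ B : Set Ω, B.Finite ∧ ∀ (κ : Fin r → k), (∀ s s', s ≠ s' →
      algebraMap k Ω (κ s) - algebraMap k Ω (κ s') ∉ B) → ∀ ε : Fin n ≃ Fin r × Fin d,
      Pol k (fun j => algebraMap k Ω (κ (ε j).1) + θ (ε j).2) →
      Function.Injective (fun j => algebraMap k Ω (κ (ε j).1) + θ (ε j).2) ∧
      TowA k (fun j => algebraMap k Ω (κ (ε j).1) + θ (ε j).2) m (fun _ => 0) := by
  obtain ⟨c, hc⟩ := hp
  have hfc : ∀ e, fv c (θ e) = 0 := fun e => by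
    rw [fv, hc, sub_self]
  obtain ⟨B, hB, H⟩ := towA_ind (n := n) (r := r) hT
  refine ⟨{0} ∪ (B ∪ (fun p : Ω × Fin d => p.1 - θ p.2) '' ({y : Ω | fv c y = 0} ×ˢ Set.univ)),
    (Set.finite_singleton 0).union (hB.union (((fv_finite c).prod Set.finite_univ).image _)), ?_⟩
  intro κ hκ ε hp'
  have h1 : ∀ s s', s ≠ s' → ∀ e y, fv c y = 0 →
      algebraMap k Ω (κ s) - algebraMap k Ω (κ s') ≠ y - θ e := by
    intro s s' hs e y hy h
    exact hκ s s' hs (Or.inr (Or.inr ⟨(y, e), ⟨hy, Set.mem_univ _⟩, h.symm⟩))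
  have hκi : ∀ s s', algebraMap k Ω (κ s) = algebraMap k Ω (κ s') → s = s' := by
    intro s s' h
    by_contra hs
    exact hκ s s' hs (Or.inl (by rw [h, sub_self]; rfl))
  have hF : ∀ F : Fin r → Fin d → Ω, (∀ s, R1 θ (⊥ : IntermediateField k Ω) (F s)) →
      R1 (fun j => algebraMap k Ω (κ (ε j).1) + θ (ε j).2) (⊥ : IntermediateField k Ω)
        (fun j => F (ε j).1 (ε j).2) := fun F hF => block hfc ε h1 hp' hF
  refine ⟨?_, ?_⟩
  · intro i j hij
    have h2 : (ε i).1 = (ε j).1 := by
      by_contra h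
      refine h1 _ _ h (ε i).2 (θ (ε j).2) (hfc _) ?_
      have h3 : algebraMap k Ω (κ (ε i).1) + θ (ε i).2 =
        algebraMap k Ω (κ (ε j).1) + θ (ε j).2 := hij
      linear_combination h3
    have h3 : (ε i).2 = (ε j).2 := by
      apply hθ
      have h4 : algebraMap k Ω (κ (ε i).1) + θ (ε i).2 =
        algebraMap k Ω (κ (ε j).1) + θ (ε j).2 := hij
      rw [h2] at h4
      exact add_left_cancel h4
    exact ε.injective (Prod.ext h2 h3)
  · have hT1 := H κ (fun s s' h h' => hκ s s' h (Or.inr (Or.inl h'))) ε hF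
    rcases r with _ | r
    · apply TowA.top
      intro i
      exact (ε i).1.elim0
    have hit : ∀ (t : ℕ) (j : Fin n),
        ε ((fun j => ε.symm ((ε j).1 + 1, (ε j).2))^[t] j) = ((ε j).1 + (t : Fin (r + 1)), (ε j).2) := by
      intro t
      induction t with
      | zero => intro j; simp
      | succ t iht =>
        intro j
        rw [Function.iterate_succ_apply', Equiv.apply_symm_apply, iht]
        simp [add_assoc]
    refine TowA.step (c' := fun j => algebraMap k Ω (κ (ε j).1) + (0 : Ω))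
      (S := fun j => ε.symm ((ε j).1 + 1, (ε j).2)) (d := r + 1)
      ⟨?_, ?_, ?_, ?_, ?_, ?_, ?_⟩ hr ?_ hT1
    · exact hF (fun s _ => algebraMap k Ω (κ s) + (0 : Ω)) fun s => isR_const _
        (by rw [add_zero]; exact (⊥ : IntermediateField k Ω).algebraMap_mem _)
    · have h2 := hF (fun s _ => algebraMap k Ω (κ (s + 1)) + (0 : Ω)) fun s => isR_const _
        (by rw [add_zero]; exact (⊥ : IntermediateField k Ω).algebraMap_mem _)
      refine IsR.congr h2 fun x => ?_
      simp only [Equiv.apply_symm_apply]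
    · intro i j _
      rfl
    · intro i j hij
      have h2 : (ε i).1 = (ε j).1 := hκi _ _ (by simpa using hij)
      simp only [Equiv.apply_symm_apply]
      rw [h2]
    · intro i
      rfl
    · intro i
      have h2 := hit (r + 1) i
      rw [h2]
      simp
    · intro i j _
      refine ⟨((ε j).1 - (ε i).1 : Fin (r + 1)).val, Fin.is_lt _, ?_⟩
      have h2 := hit ((ε j).1 - (ε i).1 : Fin (r + 1)).val i
      rw [h2]
      simp
    · exact isR_const _ (⊥ : IntermediateField k Ω).zero_mem

end Pool.Agent.H20.SXA
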