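import Pool.Agent.H20.SXA.Defs
import Pool.Agent.H20.SX.Diag
import Pool.Agent.H20.SX.Xel

/-!
# An element with distinct eigenvalues which generates a given subfield

`C` is central simple of degree `D` and contains `E = k(α)`, separable over `k`. There is `X` in the
centralizer of `E` with `D` distinct eigenvalues `θ i`: with the minimal polynomial `q` of `α` the element
`Theta q α y` = `(q(S) - q(T)) / (S - T)` at `α` on both sides of `y` commutes with `α`, and if `y`
commutes with `α` it is `q'(α) y`; over `Ω` the matrix of `α` is diagonalizable, so the polynomial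
function `gramT (Theta q α y)` of `y` is not zero (`PolyLine.exists_rat`).
Then `α = p (X)` with `p` over `k` (`α` commutes with `X`). `ε i` is the embedding of `E` with
`ε i α = p (θ i)`. The polynomial `∏ i, (T - p (θ i))` has coefficients in `k` and all its roots are
roots of the minimal polynomial of `α`, so it is a power of it.
-/

open Module Matrix

universe u

namespace Pool.Agent.H20.SXA

open Pool.Agent.H72.SB Pool.Agent.H49.Cyc Pool.Agent.H78.TT Pool.Agent.H72.TW

variable {k Ω : Type u} [Field k] [Field Ω] [Algebra k Ω] {n : ℕ}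

/-- Conjugation with a unit. -/
private def Cent_conj (u : (Matrix (Fin n) (Fin n) Ω)ˣ) :
    Matrix (Fin n) (Fin n) Ω ≃ₐ[Ω] Matrix (Fin n) (Fin n) Ω where
  toFun Y := u.1 * Y * u⁻¹.1
  invFun Y := u⁻¹.1 * Y * u.1
  left_inv Y := by
    change u⁻¹.1 * (u.1 * Y * u⁻¹.1) * u.1 = Y
    rw [← mul_assoc, ← mul_assoc, Units.inv_mul, one_mul, mul_assoc, Units.inv_mul, mul_one]
  right_inv Y := by
    change u.1 * (u⁻¹.1 * Y * u.1) * u⁻¹.1 = Y
    rw [← mul_assoc, ← mul_assoc, Units.mul_inv, one_mul, mul_assoc, Units.mul_inv, mul_one]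
  map_mul' Y Z := by
    have h : u.1 * Y * u⁻¹.1 * (u.1 * Z * u⁻¹.1) = u.1 * Y * (u⁻¹.1 * u.1) * Z * u⁻¹.1 := by
      simp only [mul_assoc]
    rw [h, Units.inv_mul, mul_one, mul_assoc u.1 Y Z]
  map_add' Y Z := by rw [mul_add, add_mul]
  commutes' r := by
    rw [← Algebra.commutes, mul_assoc, Units.mul_inv, mul_one]

private theorem Cent_conj_apply (u : (Matrix (Fin n) (Fin n) Ω)ˣ) (Y : Matrix (Fin n) (Fin n) Ω) :
    Cent_conj u Y = u.1 * Y * u⁻¹.1 := rfl

private theorem Cent_range {ι : Type*} [Fintype ι] {A : Type*} [Ring A] [Algebra k A]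
    {β : Basis ι Ω (Matrix (Fin n) (Fin n) Ω)} {ρ : A →ₐ[k] Matrix (Fin n) (Fin n) Ω}
    {b : Basis ι k A} (hρ : ∀ i, β i = ρ (b i)) {X : Matrix (Fin n) (Fin n) Ω}
    (hX : RatV β (⊥ : IntermediateField k Ω) X) : ∃ a, ρ a = X := by
  choose c hc using fun i => IntermediateField.mem_bot.1 (hX i)
  refine ⟨∑ i, c i • b i, ?_⟩
  rw [← β.sum_repr X, map_sum]
  refine Finset.sum_congr rfl fun i _ => ?_
  rw [map_smul, ← hρ i, ← hc i, algebraMap_smul]

/-- A polynomial of a diagonal matrix. -/
private theorem Cent_aeval_diag {R : Type*} [CommRing R] [Algebra R Ω] (a : Fin n → Ω)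
    (q : Polynomial R) :
    Polynomial.aeval (Matrix.diagonal a) q = Matrix.diagonal fun i => Polynomial.aeval (a i) q := by
  have h1 := Polynomial.aeval_algHom_apply (Matrix.diagonalAlgHom (n := Fin n) (α := Ω) R) a q
  have h2 : (Matrix.diagonalAlgHom (n := Fin n) (α := Ω) R) a = Matrix.diagonal a := rfl
  rw [h2] at h1
  rw [h1]
  change Matrix.diagonal (Polynomial.aeval a q) = _
  congr 1
  funext i
  exact (Polynomial.aeval_algHom_apply (Pi.evalAlgHom R (fun _ : Fin n => Ω) i) a q).symm

/-- A matrix with a squarefree polynomial is diagonalizable. -/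
private theorem Cent_diag [IsAlgClosed Ω] {A : Matrix (Fin n) (Fin n) Ω} {q : Polynomial Ω}
    (hq : Squarefree q) (hA : Polynomial.aeval A q = 0) :
    ∃ (P : (Matrix (Fin n) (Fin n) Ω)ˣ) (a : Fin n → Ω), A = Cent_conj P (Matrix.diagonal a) := by
  classical
  set f : Module.End Ω (Fin n → Ω) := Matrix.toLinAlgEquiv' A with hf
  have hfq : Polynomial.aeval f q = 0 := by
    have h0 := Polynomial.aeval_algHom_apply
      (Matrix.toLinAlgEquiv' : Matrix (Fin n) (Fin n) Ω ≃ₐ[Ω] _).toAlgHom A q
    rw [hA, map_zero] at h0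
    exact h0
  have hss : f.IsSemisimple := Module.End.isSemisimple_of_squarefree_aeval_eq_zero hq hfq
  have htop : ⨆ x, f.eigenspace x = ⊤ := by
    rw [← Module.End.iSup_maxGenEigenspace_eq_top f]
    exact iSup_congr fun x => (hss.isFinitelySemisimple.maxGenEigenspace_eq_eigenspace x).symm
  set s : Set (Fin n → Ω) := {w | ∃ x, w ∈ f.eigenspace x} with hs
  have hspan : ⊤ ≤ Submodule.span Ω s := by
    rw [← htop]
    refine iSup_le fun x w hw => Submodule.subset_span ⟨x, hw⟩
  set b := Basis.ofSpan hspan with hb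
  have hfin : Finite _ := Module.Finite.finite_basis b
  have hft := Fintype.ofFinite ((linearIndepOn_empty Ω (id : (Fin n → Ω) → (Fin n → Ω))).extend
    (Set.empty_subset s))
  have hcard : Fintype.card ((linearIndepOn_empty Ω (id : (Fin n → Ω) → (Fin n → Ω))).extend
    (Set.empty_subset s)) = n := by
    rw [← Module.finrank_eq_card_basis b, Module.finrank_fintype_fun_eq_card, Fintype.card_fin]
  set b' := b.reindex (Fintype.equivFinOfCardEq hcard) with hb'
  have hev : ∀ i, ∃ x : Ω, A *ᵥ b' i = x • b' i := by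
    intro i
    have h1 : b' i ∈ s := by
      rw [hb', Basis.reindex_apply]
      exact Basis.ofSpan_subset hspan ⟨_, rfl⟩
    obtain ⟨x, hx⟩ := h1
    refine ⟨x, ?_⟩
    have h2 := Module.End.mem_eigenspace_iff.1 hx
    exact h2
  choose a ha using hev
  have hP : IsUnit (Matrix.of fun r i => b' i r) := by
    rw [← Matrix.linearIndependent_cols_iff_isUnit]
    exact b'.linearIndependent
  obtain ⟨P, hP⟩ := hP
  refine ⟨P, a, ?_⟩
  have h3 : A * P.1 = P.1 * Matrix.diagonal a := by
    rw [hP]
    ext r i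
    have h4 := congrFun (ha i) r
    rw [Matrix.mul_diagonal, Matrix.of_apply, Matrix.mul_apply]
    rw [Matrix.mulVec, dotProduct, Pi.smul_apply, smul_eq_mul] at h4
    rw [mul_comm, ← h4]
    rfl
  rw [Cent_conj_apply, ← h3, mul_assoc, Units.mul_inv, mul_one]

/-- The Gram determinant does not change under conjugation. -/
private theorem Cent_gramT (u : (Matrix (Fin n) (Fin n) Ω)ˣ) (Y : Matrix (Fin n) (Fin n) Ω) :
    gramT (Cent_conj u Y) = gramT Y := by
  unfold gramT
  congr 1
  ext a b
  rw [Matrix.of_apply, Matrix.of_apply, Cent_conj_apply, Units.conj_pow, Matrix.trace_units_conj]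

/-- `(μ(S) - μ(T)) / (S - T)` with `y` in the middle. -/
private def Theta {R A : Type*} [CommRing R] [Ring A] [Algebra R A] (q : Polynomial R) (α y : A) :
    A :=
  ∑ j ∈ Finset.range (q.natDegree + 1), q.coeff j •
    ∑ a ∈ Finset.range j, α ^ a * y * α ^ (j - 1 - a)

private theorem Theta_comm {R A : Type*} [CommRing R] [Ring A] [Algebra R A] {q : Polynomial R}
    {α : A} (h : Polynomial.aeval α q = 0) (y : A) :
    α * Theta q α y = Theta q α y * α := by
  have h1 : ∀ j, α * (∑ a ∈ Finset.range j, α ^ a * y * α ^ (j - 1 - a)) -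
      (∑ a ∈ Finset.range j, α ^ a * y * α ^ (j - 1 - a)) * α = α ^ j * y - y * α ^ j := by
    intro j
    rw [Finset.mul_sum, Finset.sum_mul, ← Finset.sum_sub_distrib]
    have h2 := Finset.sum_range_sub (fun a => α ^ a * y * α ^ (j - a)) j
    simp only [pow_zero, one_mul, Nat.sub_zero, Nat.sub_self, mul_one] at h2
    rw [← h2]
    refine Finset.sum_congr rfl fun a ha => ?_
    rw [Finset.mem_range] at ha
    have e1 : j - 1 - a = j - (a + 1) := by omega
    have e2 : j - a = (j - 1 - a) + 1 := by omega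
    rw [e2, pow_succ α (j - 1 - a), ← e1, pow_succ' α a]
    simp only [mul_assoc]
  have h3 : α * Theta q α y - Theta q α y * α =
      Polynomial.aeval α q * y - y * Polynomial.aeval α q := by
    unfold Theta
    rw [Polynomial.aeval_eq_sum_range, Finset.mul_sum, Finset.sum_mul, Finset.sum_mul,
      Finset.mul_sum, ← Finset.sum_sub_distrib, ← Finset.sum_sub_distrib]
    refine Finset.sum_congr rfl fun j _ => ?_
    rw [mul_smul_comm, smul_mul_assoc, smul_mul_assoc, mul_smul_comm, ← smul_sub, ← smul_sub, h1]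
  rw [h, zero_mul, mul_zero, sub_zero, sub_eq_zero] at h3
  exact h3

private theorem Theta_of_comm {R A : Type*} [CommRing R] [Ring A] [Algebra R A] {q : Polynomial R}
    {α y : A} (h : Commute α y) : Theta q α y = Polynomial.aeval α (Polynomial.derivative q) * y := by
  unfold Theta
  have h1 : ∀ j, ∑ a ∈ Finset.range j, α ^ a * y * α ^ (j - 1 - a) = (j : A) * α ^ (j - 1) * y := by
    intro j
    have h2 : ∀ a ∈ Finset.range j, α ^ a * y * α ^ (j - 1 - a) = α ^ (j - 1) * y := by
      intro a ha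
      rw [Finset.mem_range] at ha
      rw [mul_assoc, ← (h.pow_left (j - 1 - a)).eq, ← mul_assoc, ← pow_add]
      congr 2
      omega
    rw [Finset.sum_congr rfl h2, Finset.sum_const, Finset.card_range, nsmul_eq_mul, mul_assoc]
  have h3 : Polynomial.aeval α (Polynomial.derivative q) =
      ∑ j ∈ Finset.range (q.natDegree + 1), q.coeff j • ((j : A) * α ^ (j - 1)) := by
    conv_lhs => rw [q.as_sum_range_C_mul_X_pow]
    rw [Polynomial.derivative_sum, map_sum]
    refine Finset.sum_congr rfl fun j _ => ?_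
    rw [Polynomial.derivative_C_mul_X_pow, map_mul, Polynomial.aeval_C, map_pow,
      Polynomial.aeval_X, map_mul, map_natCast, mul_assoc, Algebra.smul_def]
  rw [h3, Finset.sum_mul]
  refine Finset.sum_congr rfl fun j _ => ?_
  rw [h1, smul_mul_assoc]

private theorem Theta_map {A : Type*} [Ring A] [Algebra k A]
    (ρ : A →ₐ[k] Matrix (Fin n) (Fin n) Ω) (q : Polynomial k) (x y : A) :
    ρ (Theta q x y) = Theta (q.map (algebraMap k Ω)) (ρ x) (ρ y) := by
  unfold Theta
  rw [Polynomial.natDegree_map, map_sum]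
  refine Finset.sum_congr rfl fun j _ => ?_
  rw [map_smul, map_sum, Polynomial.coeff_map, algebraMap_smul]
  congr 1
  refine Finset.sum_congr rfl fun a _ => ?_
  rw [map_mul, map_mul, map_pow, map_pow]

private theorem Theta_line (q : Polynomial Ω) (A x y : Matrix (Fin n) (Fin n) Ω) (t : Ω) :
    Theta q A (x + t • y) = Theta q A x + t • Theta q A y := by
  have h1 : ∀ j, ∑ a ∈ Finset.range j, A ^ a * (x + t • y) * A ^ (j - 1 - a) =
      (∑ a ∈ Finset.range j, A ^ a * x * A ^ (j - 1 - a)) +
        t • ∑ a ∈ Finset.range j, A ^ a * y * A ^ (j - 1 - a) := by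
    intro j
    rw [Finset.smul_sum, ← Finset.sum_add_distrib]
    refine Finset.sum_congr rfl fun a _ => ?_
    rw [mul_add, add_mul, mul_smul_comm, smul_mul_assoc]
  unfold Theta
  rw [Finset.smul_sum, ← Finset.sum_add_distrib]
  refine Finset.sum_congr rfl fun j _ => ?_
  rw [h1, smul_add, smul_comm t]

private theorem Cent_exists_X [Infinite k] [IsAlgClosed Ω] {ι : Type*} [Fintype ι] {A : Type*}
    [Ring A] [Algebra k A] {β : Basis ι Ω (Matrix (Fin n) (Fin n) Ω)}
    {ρ : A →ₐ[k] Matrix (Fin n) (Fin n) Ω} {b : Basis ι k A} (hρ : ∀ i, β i = ρ (b i)) {x : A}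
    {q : Polynomial k} (hq : q.Separable) (hx : Polynomial.aeval x q = 0) :
    ∃ X : A, x * X = X * x ∧ gramT (ρ X) ≠ 0 := by
  have hinf : Infinite Ω := Infinite.of_injective (algebraMap k Ω) (algebraMap k Ω).injective
  set qΩ := q.map (algebraMap k Ω) with hqΩ
  have hsep : qΩ.Separable := hq.map
  have hA : Polynomial.aeval (ρ x) qΩ = 0 := by
    rw [hqΩ, Polynomial.aeval_map_algebraMap, Polynomial.aeval_algHom_apply, hx, map_zero]
  obtain ⟨P, a, hPa⟩ := Cent_diag hsep.squarefree hA
  have hpoly : ∀ r : Polynomial Ω, Polynomial.aeval (ρ x) r =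
      Cent_conj P (Matrix.diagonal fun i => Polynomial.aeval (a i) r) := by
    intro r
    have h0 := Polynomial.aeval_algHom_apply (Cent_conj P).toAlgHom (Matrix.diagonal a) r
    rw [Cent_aeval_diag] at h0
    rw [hPa]
    exact h0
  have hroot : ∀ i, Polynomial.aeval (a i) qΩ = 0 := by
    intro i
    have h1 := hpoly qΩ
    rw [hA] at h1
    have h2 : Matrix.diagonal (fun i => Polynomial.aeval (a i) qΩ) = 0 := by
      apply (Cent_conj P).injective
      rw [map_zero, ← h1]
    have h3 := congrFun (congrFun h2 i) i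
    rw [Matrix.diagonal_apply_eq] at h3
    exact h3
  have hder : ∀ i, Polynomial.aeval (a i) (Polynomial.derivative qΩ) ≠ 0 := fun i =>
    hsep.aeval_derivative_ne_zero (hroot i)
  let z : Fin n → Ω := fun i => Infinite.natEmbedding Ω i
  have hz : Function.Injective z := fun i j hij => Fin.ext ((Infinite.natEmbedding Ω).injective hij)
  set Y0 := Cent_conj P (Matrix.diagonal fun i =>
    z i / Polynomial.aeval (a i) (Polynomial.derivative qΩ)) with hY0
  have hcomm : Commute (ρ x) Y0 := by
    rw [commute_iff_eq, hY0]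
    conv_lhs => rw [hPa]
    conv_rhs => rw [hPa]
    rw [← map_mul, ← map_mul, Matrix.diagonal_mul_diagonal, Matrix.diagonal_mul_diagonal]
    congr 2
    funext i
    exact mul_comm _ _
  have hTh : Theta qΩ (ρ x) Y0 = Cent_conj P (Matrix.diagonal z) := by
    rw [Theta_of_comm hcomm, hpoly, hY0, ← map_mul, Matrix.diagonal_mul_diagonal]
    congr 2
    funext i
    rw [mul_div_cancel₀ _ (hder i)]
  have hpl : PolyLine Ω (fun Y : Matrix (Fin n) (Fin n) Ω => gramT (Theta qΩ (ρ x) Y)) := by
    intro Y Z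
    obtain ⟨p, hp⟩ := polyLine_gramT (Theta qΩ (ρ x) Y) (Theta qΩ (ρ x) Z)
    refine ⟨p, fun t => ?_⟩
    rw [← hp t, ← Theta_line]
  obtain ⟨Y, hY, hY1⟩ := hpl.exists_rat (k := k) β ⟨Y0, by
    rw [hTh, Cent_gramT]
    exact gramT_diagonal hz⟩
  obtain ⟨y, rfl⟩ := Cent_range hρ hY
  exact ⟨Theta q x y, Theta_comm hx y, by rw [Theta_map]; exact hY1⟩

/-- A polynomial over `k` all of whose roots are roots of the irreducible polynomial `μ`. -/
private theorem Cent_pow [IsAlgClosed Ω] {μ : Polynomial k} (hμ : Irreducible μ) (hm : μ.Monic) :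
    ∀ d : ℕ, ∀ g : Polynomial k, g.Monic → g.natDegree ≤ d →
      (∀ z : Ω, Polynomial.aeval z g = 0 → Polynomial.aeval z μ = 0) → ∃ r : ℕ, g = μ ^ r := by
  intro d
  induction d with
  | zero =>
    intro g hg hd _
    exact ⟨0, by rw [pow_zero]; exact hg.natDegree_eq_zero.1 (by omega)⟩
  | succ d ih =>
    intro g hg hd hr
    by_cases hg0 : g.natDegree = 0
    · exact ⟨0, by rw [pow_zero]; exact hg.natDegree_eq_zero.1 hg0⟩
    · obtain ⟨z, hz⟩ := IsAlgClosed.exists_aeval_eq_zero Ω g (by
        exact fun h => hg0 (Polynomial.natDegree_eq_zero_iff_degree_le_zero.2 h.le))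
      have h1 : μ = minpoly k z := minpoly.eq_of_irreducible_of_monic hμ (hr z hz) hm
      obtain ⟨g', hg'⟩ : μ ∣ g := h1 ▸ minpoly.dvd k z hz
      have hg'm : g'.Monic := hm.of_mul_monic_left (hg' ▸ hg)
      have hμd : 0 < μ.natDegree := hμ.natDegree_pos
      have hdeg : g.natDegree = μ.natDegree + g'.natDegree := by
        rw [hg', hm.natDegree_mul hg'm]
      obtain ⟨r, hr'⟩ := ih g' hg'm (by omega) (fun w hw => hr w (by
        rw [hg', map_mul, hw, mul_zero]))
      exact ⟨r + 1, by rw [hg', hr', pow_succ']⟩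

/-- The polynomial with the roots `a i`, `a` rational. -/
private theorem Cent_g {θ : Fin n → Ω} (hp : Pol k θ) (hθ : Function.Injective θ) {a : Fin n → Ω}
    (ha : R1 θ (⊥ : IntermediateField k Ω) a) :
    ∃ g : Polynomial k, g.map (algebraMap k Ω) = ∏ i, (Polynomial.X - Polynomial.C (a i)) := by
  classical
  obtain ⟨β, hβ⟩ := exists_basR hp hθ 1
  let L : ((Fin 1 → Fin n) → Ω) →ₗ[Ω] ((Fin 1 → Fin n) → Ω) :=
    Matrix.toLin' (Matrix.diagonal fun x : Fin 1 → Fin n => a (x 0))
  have hL : ∀ F x, L F x = a (x 0) * F x := by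
    intro F x
    simp only [L, Matrix.toLin'_apply, Matrix.mulVec_diagonal]
  have hM : ∀ i j, LinearMap.toMatrix β β L i j ∈ (⊥ : IntermediateField k Ω) := by
    intro i j
    rw [LinearMap.toMatrix_apply]
    have h1 : IsR θ (⊥ : IntermediateField k Ω) (Fin 1) (β j) := (hβ _ _).1 (ratV_basis j)
    have h2 : IsR θ (⊥ : IntermediateField k Ω) (Fin 1) (L (β j)) :=
      (IsR.mul ha h1).congr fun x => hL _ _
    exact (hβ _ _).2 h2 i
  choose N hN using fun i j => IntermediateField.mem_bot.1 (hM i j)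
  refine ⟨(Matrix.of N).charpoly, ?_⟩
  rw [← Matrix.charpoly_map]
  have h3 : (Matrix.of N).map (algebraMap k Ω) = LinearMap.toMatrix β β L := by
    ext i j
    exact hN i j
  rw [h3, LinearMap.charpoly_toMatrix, ← LinearMap.charpoly_toMatrix L (Pi.basisFun Ω _),
    LinearMap.toMatrix_eq_toMatrix', LinearMap.toMatrix'_toLin', Matrix.charpoly_diagonal]
  exact Fintype.prod_equiv (Equiv.funUnique (Fin 1) (Fin n)) _ _ fun x => rfl

theorem exists_cent [Infinite k] [IsAlgClosed Ω] {C : CSA.{u, u} k} {D : ℕ}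
    (hC : finrank k C = D ^ 2) {E : Type u} [Field E] [Algebra k E] [FiniteDimensional k E]
    [Algebra.IsSeparable k E] (φ : E →ₐ[k] C) {α : E}
    (hα : IntermediateField.adjoin k {α} = ⊤) :
    ∃ (X : C) (f : Polynomial k) (θ : Fin D → Ω) (ε : Fin D → E →ₐ[k] Ω),
      Function.Injective θ ∧
      f.map (algebraMap k Ω) = ∏ j, (Polynomial.X - Polynomial.C (θ j)) ∧
      Polynomial.aeval X f = 0 ∧ LinearIndependent k (fun a : Fin D => X ^ (a : ℕ)) ∧
      Function.Surjective ε ∧ R1 θ (⊥ : IntermediateField k Ω) (fun i => ε i α) ∧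
      ∀ e, Set.ncard {i | ε i = e} * finrank k E = D := by
  classical
  have hint : IsIntegral k α := Algebra.IsIntegral.isIntegral α
  set μ := minpoly k α with hμdef
  have hμi : Irreducible μ := minpoly.irreducible hint
  have hμm : μ.Monic := minpoly.monic hint
  have hμs : μ.Separable := Algebra.IsSeparable.isSeparable k α
  have hμd : μ.natDegree = finrank k E := by
    rw [hμdef, ← IntermediateField.adjoin.finrank hint, hα, IntermediateField.finrank_top']
  have hadj : Algebra.adjoin k {α} = ⊤ := by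
    have h2 : (IntermediateField.adjoin k {α}).toSubalgebra = Algebra.adjoin k {α} :=
      IntermediateField.adjoin_simple_toSubalgebra_of_isAlgebraic hint.isAlgebraic
    rw [← h2, hα]
    rfl
  let pb : PowerBasis k E := PowerBasis.ofAdjoinEqTop hint hadj
  have hgen : pb.gen = α := rfl
  have hφμ : Polynomial.aeval (φ α) μ = 0 := by
    rw [Polynomial.aeval_algHom_apply, hμdef, minpoly.aeval, map_zero]
  obtain ⟨ρ, b, β, hρ, -⟩ := exists_form (Ω := Ω) C hC
  obtain ⟨X, hcomm, hX⟩ := Cent_exists_X hρ hμs hφμ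
  obtain ⟨P, θ, hP, hθ, hPX⟩ := exists_diag hX
  obtain ⟨u, rfl⟩ := hP
  set ρ' : C →ₐ[k] Matrix (Fin D) (Fin D) Ω :=
    (((Cent_conj u).restrictScalars k).toAlgHom).comp ρ with hρ'
  set β' : Basis (Fin (D ^ 2)) Ω (Matrix (Fin D) (Fin D) Ω) :=
    β.map (Cent_conj u).toLinearEquiv with hβ'
  have h1 : ∀ i, β' i = ρ' (b i) := by
    intro i
    rw [hβ', Basis.map_apply, hρ i]
    rfl
  have hρX : ρ' X = Matrix.diagonal θ := by
    change u.1 * ρ X * u⁻¹.1 = Matrix.diagonal θ
    rw [hPX, mul_assoc, Units.mul_inv, mul_one]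
  have hd : RatV β' (⊥ : IntermediateField k Ω) (Matrix.diagonal θ) := by
    rw [← hρX]
    exact ratV_rho h1 X
  have hpl : PolyLine Ω (fun M : Matrix (Fin D) (Fin D) Ω => ∏ i, ∏ j, M i j) :=
    PolyLine.prod _ fun i _ => PolyLine.prod _ fun j _ =>
      polyLine_linear (Matrix.entryLinearMap Ω Ω i j)
  obtain ⟨v, hv, hv0⟩ := hpl.exists_rat (k := k) β' ⟨Matrix.of fun _ _ => 1, by
    simp only [Matrix.of_apply, Finset.prod_const_one]
    exact one_ne_zero⟩
  have hv1 : ∀ i j, v i j ≠ 0 := fun i j =>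
    Finset.prod_ne_zero_iff.1 (Finset.prod_ne_zero_iff.1 hv0 i (Finset.mem_univ i)) j
      (Finset.mem_univ j)
  obtain ⟨h, hh⟩ := dat_of_form (isForm_of_rho h1) hθ hd hv hv1
  have hp : Pol k θ := h.pol
  have hD : D ≠ 0 := by
    rintro rfl
    have h0 : 0 < finrank k C := Module.finrank_pos
    rw [hC] at h0
    simp at h0
  have : NeZero D := ⟨hD⟩
  have hinj : Function.Injective ρ' := ρ'.toRingHom.injective
  -- the polynomial `f`
  have hθ1 : R1 θ (⊥ : IntermediateField k Ω) θ := isR_theta (0 : Fin 1)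
  obtain ⟨f, hf⟩ := Cent_g hp hθ hθ1
  have hXf : Polynomial.aeval X f = 0 := by
    apply hinj
    rw [map_zero, ← Polynomial.aeval_algHom_apply, hρX, Cent_aeval_diag]
    ext i j
    by_cases hij : i = j
    · subst hij
      rw [Matrix.diagonal_apply_eq, Matrix.zero_apply, ← Polynomial.eval_map_algebraMap, hf,
        Polynomial.eval_prod]
      exact Finset.prod_eq_zero (Finset.mem_univ i) (by simp)
    · rw [Matrix.diagonal_apply_ne _ hij, Matrix.zero_apply]
  have hli : LinearIndependent k (fun a : Fin D => X ^ (a : ℕ)) := by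
    rw [Fintype.linearIndependent_iff]
    intro c hc a
    have h2 := congrArg ρ' hc
    rw [map_sum, map_zero] at h2
    simp only [map_smul, map_pow, hρX, Matrix.diagonal_pow] at h2
    have h3 : Matrix.vandermonde θ *ᵥ (fun a => algebraMap k Ω (c a)) = 0 := by
      funext i
      have h4 := congrFun (congrFun h2 i) i
      rw [Matrix.sum_apply, Matrix.zero_apply] at h4
      rw [Pi.zero_apply, ← h4, Matrix.mulVec, dotProduct]
      refine Finset.sum_congr rfl fun a _ => ?_
      rw [Matrix.smul_apply, Matrix.diagonal_apply_eq, Pi.pow_apply, Matrix.vandermonde_apply,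
        Algebra.smul_def, mul_comm]
    have h5 := Matrix.eq_zero_of_mulVec_eq_zero (Matrix.det_vandermonde_ne_zero_iff.2 hθ) h3
    have h6 := congrFun h5 a
    exact (map_eq_zero _).1 h6
  -- the function `a`
  set M := ρ' (φ α) with hM
  set a : Fin D → Ω := fun i => M i i with ha
  have hMd : M = Matrix.diagonal a := by
    ext i j
    by_cases hij : i = j
    · subst hij
      rw [Matrix.diagonal_apply_eq]
    · rw [Matrix.diagonal_apply_ne _ hij]
      have h2 := congrArg ρ' hcomm
      rw [map_mul, map_mul, hρX, ← hM] at h2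
      have h3 := congrFun (congrFun h2 i) j
      rw [Matrix.mul_diagonal, Matrix.diagonal_mul] at h3
      have h4 : (θ i - θ j) * M i j = 0 := by rw [sub_mul, ← h3]; ring
      exact (mul_eq_zero.1 h4).resolve_left (sub_ne_zero.2 fun h5 => hij (hθ h5))
  have haR : R1 θ (⊥ : IntermediateField k Ω) a := by
    have h2 : RF θ (fun i j => v i j) 1 (⊥ : IntermediateField k Ω) M :=
      (ratV_bas h).1 ((hh M).2 (ratV_rho h1 (φ α)))
    have h3 : IsR θ (⊥ : IntermediateField k Ω) (Fin 1)
        (fun x => M (x 0) (x 0) / v (x 0) (x 0) ^ (1 : ℤ)) := IsR.comp h2 (fun _ => (0 : Fin 1))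
    have h4 : IsR θ (⊥ : IntermediateField k Ω) (Fin 1) (fun x => v (x 0) (x 0) ^ (1 : ℤ)) :=
      h.diag_zpow 1
    refine (h3.mul h4).congr fun x => ?_
    rw [div_mul_cancel₀ _ (zpow_ne_zero _ (hv1 _ _))]
  have haμ : ∀ i, Polynomial.aeval (a i) μ = 0 := by
    intro i
    have h2 : Polynomial.aeval M μ = 0 := by
      rw [hM, Polynomial.aeval_algHom_apply, hφμ, map_zero]
    rw [hMd, Cent_aeval_diag] at h2
    have h3 := congrFun (congrFun h2 i) i
    rw [Matrix.diagonal_apply_eq] at h3
    exact h3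
  -- the embeddings
  let ε : Fin D → E →ₐ[k] Ω := fun i => pb.lift (a i) (haμ i)
  have hεα : ∀ i, ε i α = a i := fun i => pb.lift_gen (a i) (haμ i)
  have hεe : ∀ (i : Fin D) (e : E →ₐ[k] Ω), ε i = e ↔ e α = a i := by
    intro i e
    constructor
    · rintro rfl
      exact hεα i
    · intro h2
      apply pb.algHom_ext
      rw [hgen, hεα, h2]
  -- the polynomial `g`
  obtain ⟨g, hg⟩ := Cent_g hp hθ haR
  have hgm : g.Monic := by
    apply Polynomial.monic_of_injective (algebraMap k Ω).injective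
    rw [hg]
    exact Polynomial.monic_prod_of_monic _ _ fun j _ => Polynomial.monic_X_sub_C _
  have hgd : g.natDegree = D := by
    rw [← Polynomial.natDegree_map (algebraMap k Ω), hg,
      Polynomial.natDegree_finsetProd_X_sub_C_eq_card, Finset.card_univ, Fintype.card_fin]
  obtain ⟨r, hr⟩ := Cent_pow (Ω := Ω) hμi hμm D g hgm hgd.le (fun z hz => by
    rw [← Polynomial.eval_map_algebraMap, hg, Polynomial.eval_prod] at hz
    obtain ⟨i, -, hi⟩ := Finset.prod_eq_zero_iff.1 hz
    rw [Polynomial.eval_sub, Polynomial.eval_X, Polynomial.eval_C, sub_eq_zero] at hi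
    rw [hi]
    exact haμ i)
  have hcount : ∀ e : E →ₐ[k] Ω, Set.ncard {i | ε i = e} = r := by
    intro e
    have hroots : (g.map (algebraMap k Ω)).roots = (Finset.univ : Finset (Fin D)).val.map a := by
      rw [hg]
      have h2 : (∏ j, (Polynomial.X - Polynomial.C (a j))) =
          (((Finset.univ : Finset (Fin D)).val.map a).map
            (fun c => Polynomial.X - Polynomial.C c)).prod := by
        rw [Multiset.map_map]
        rfl
      rw [h2, Polynomial.roots_multiset_prod_X_sub_C]
    have hroots' : (g.map (algebraMap k Ω)).roots = r • (μ.map (algebraMap k Ω)).roots := by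
      rw [hr, Polynomial.map_pow, Polynomial.roots_pow]
    have hz : e α ∈ (μ.map (algebraMap k Ω)).roots := by
      rw [Polynomial.mem_roots (hμm.map _).ne_zero, Polynomial.IsRoot.def,
        Polynomial.eval_map_algebraMap, Polynomial.aeval_algHom_apply, hμdef, minpoly.aeval,
        map_zero]
    have h1c : (μ.map (algebraMap k Ω)).roots.count (e α) = 1 :=
      Multiset.count_eq_one_of_mem (Polynomial.nodup_roots hμs.map) hz
    have h2c : (g.map (algebraMap k Ω)).roots.count (e α) = r := by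
      rw [hroots', Multiset.count_nsmul, h1c, mul_one]
    rw [← h2c, hroots, Multiset.count_map, Set.ncard_eq_toFinset_card']
    rw [Finset.card_def]
    congr 1
    rw [← Finset.filter_val]
    congr 1
    ext i
    simp only [Set.mem_toFinset, Set.mem_ofPred_eq, Finset.mem_filter, Finset.mem_univ, true_and]
    exact hεe i e
  have hrD : r * finrank k E = D := by
    rw [← hμd, ← hgd, hr, hμm.natDegree_pow]
  refine ⟨X, f, θ, ε, hθ, hf, hXf, hli, ?_, haR.congr fun i => hεα i, fun e => by rw [hcount e, hrD]⟩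
  intro e
  have hr0 : r ≠ 0 := by
    rintro rfl
    rw [zero_mul] at hrD
    exact hD hrD.symm
  have hne : Set.ncard {i | ε i = e} ≠ 0 := by rw [hcount e]; exact hr0
  obtain ⟨i, hi⟩ := Set.nonempty_of_ncard_ne_zero hne
  exact ⟨i, hi⟩

end Pool.Agent.H20.SXA
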