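import Pool.Agent.H72.TW.Fields
import Pool.Agent.H72.TW.Line

/-!
# Towers with layers of any type

Besides cyclic layers (period prime to `m`) a tower may have layers of any type whose degree `d`
divides `m - 1` or `m + 1`.

Line map for such a layer (`c` coarse, `c'` fine, `d` classes of `c'` in every class of `c`). Let
`F i l = ∑ (i' ~' i) (l' ~' l) f (i', l') w (i', l')`, `f` over `k`, all `F i l ≠ 0` for `i ~ l`, a class
function (for `~'`) of `i` and of `l`, and `ψ i = ∏` over the classes `[l]` of `~'` in the class of `i` for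
`~` of `F i l`; `m = 1 + d * e` or `m = -1 + d * e`; `t' = t * ψ ^ e` or its analogue with the sign of
`rr_line` (`w i l` goes with `t l / t i`).
Under `D'(w)`: `F i l = w i l` modulo rational functions of `i ~ l`, so
`ψ i / ψ j = ∏_[l] F i l / F j l = F i j ^ d = w i j ^ d` modulo rational functions of `i ~ j`.
So under `D'(w)`: `w i l ^ m * (t' l / t' i) = w i l ^ (m - d e) = w i l ^ (± 1)` modulo rational
functions, on `~` pairs (`t` is rational); on `~'` pairs `ψ` cancels. And `D(w)` implies that `F`, `ψ`
and `t'` are rational.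
Products over classes are rational: `∏_[l] G i j l = det (∑ (l ~ i) b l c' l ^ (a + a') G i j l) /
det (∑ (l ~ i) b l c' l ^ (a + a'))`, `a, a' < d`, `b` over `k` with the sum `1` over every class of `~'`.
-/

open Module

namespace Pool.Agent.H20.SXA

open Pool.Agent.H78.TT Pool.Agent.H72.TW

variable {k Ω : Type*} [Field k] [Field Ω] [Algebra k Ω] {n : ℕ}

/-- A layer of any type: every class of `c` contains `d` classes of `c'`. -/
structure LayerA (k : Type*) {Ω : Type*} [Field k] [Field Ω] [Algebra k Ω] {n : ℕ} (θ : Fin n → Ω)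
    (c c' : Fin n → Ω) (d : ℕ) : Prop where
  rat : R1 θ (⊥ : IntermediateField k Ω) c'
  fine : ∀ i j, c' i = c' j → c i = c j
  card : ∀ i, Set.ncard (c' '' {l | c l = c i}) = d

/-- A tower of layers, cyclic ones of a period prime to `m` and others of a degree which divides
`m - 1` or `m + 1`. -/
inductive TowA (k : Type*) {Ω : Type*} [Field k] [Field Ω] [Algebra k Ω] {n : ℕ} (θ : Fin n → Ω)
    (m : ℕ) : (Fin n → Ω) → Prop
  | top {c : Fin n → Ω} : Function.Injective c → TowA k θ m c
  | step {c c' : Fin n → Ω} {S : Fin n → Fin n} {d : ℕ} : Layer k θ c c' S d → m.Coprime d →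
      R1 θ (⊥ : IntermediateField k Ω) c → TowA k θ m c' → TowA k θ m c
  | any {c c' : Fin n → Ω} {d : ℕ} : LayerA k θ c c' d →
      ((d : ℤ) ∣ (m : ℤ) - 1 ∨ (d : ℤ) ∣ (m : ℤ) + 1) →
      R1 θ (⊥ : IntermediateField k Ω) c → TowA k θ m c' → TowA k θ m c

/-- `E` is obtained from `k` by a chain of extensions which are cyclic Galois or have a degree with
the property `P`. -/
def IsTowerP (k E : Type*) [Field k] [Field E] [Algebra k E] (P : ℕ → Prop) : Prop :=
  ∃ (r : ℕ) (F : ℕ → IntermediateField k E), F 0 = ⊥ ∧ F r = ⊤ ∧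
    ∀ j < r, ∃ h : F j ≤ F (j + 1), (IsGalois (F j) (IntermediateField.extendScalars h) ∧
      IsCyclic (IntermediateField.extendScalars h ≃ₐ[F j] IntermediateField.extendScalars h)) ∨
      P (finrank (F j) (IntermediateField.extendScalars h))

end Pool.Agent.H20.SXA
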