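import Pool.Agent.H20.SXA.Defs
import Pool.Agent.H72.TW.Trans

/-!
# Solvable steps

A step `F ≤ F'` of a chain which is Galois with a solvable group is refined to cyclic steps
(`isCyclicTower_of_isSolvable` for `F' / F`; the intermediate fields of `F' / F` as intermediate
fields of `E / k`; transport of the steps as in `H72/TW/Trans`).
-/

open Module

namespace Pool.Agent.H20.SXA

open Pool.Agent.H72.TW

/-- `E` is obtained from `k` by a chain of extensions which are Galois with a solvable group or have a
degree with the property `P`. -/
def IsTowerS (k E : Type*) [Field k] [Field E] [Algebra k E] (P : ℕ → Prop) : Prop :=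
  ∃ (r : ℕ) (F : ℕ → IntermediateField k E), F 0 = ⊥ ∧ F r = ⊤ ∧
    ∀ j < r, ∃ h : F j ≤ F (j + 1), (IsGalois (F j) (IntermediateField.extendScalars h) ∧
      Group.IsSolvable
        (IntermediateField.extendScalars h ≃ₐ[F j] IntermediateField.extendScalars h)) ∨
      P (finrank (F j) (IntermediateField.extendScalars h))

section Up

variable {k E : Type*} [Field k] [Field E] [Algebra k E] {F F' : IntermediateField k E}

/-- One step. -/
private def St (P : ℕ → Prop) (F F' : IntermediateField k E) : Prop :=
  ∃ h : F ≤ F', (IsGalois F (IntermediateField.extendScalars h) ∧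
    IsCyclic (IntermediateField.extendScalars h ≃ₐ[F] IntermediateField.extendScalars h)) ∨
    P (finrank F (IntermediateField.extendScalars h))

/-- An intermediate field of `F' / F` as an intermediate field of `E / k`. -/
private def up (h : F ≤ F') (L : IntermediateField F (IntermediateField.extendScalars h)) :
    IntermediateField k E :=
  (IntermediateField.lift L).restrictScalars k

private theorem up_bot (h : F ≤ F') : up h ⊥ = F := by
  unfold up
  rw [IntermediateField.lift_bot]
  ext x
  rw [IntermediateField.mem_restrictScalars, IntermediateField.mem_bot]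
  constructor
  · rintro ⟨y, rfl⟩
    exact y.2
  · intro hx
    exact ⟨⟨x, hx⟩, rfl⟩

private theorem up_top (h : F ≤ F') : up h ⊤ = F' := by
  unfold up
  rw [IntermediateField.lift_top]
  exact IntermediateField.extendScalars_restrictScalars h

/-- `L` and its image. -/
private def upEquiv (h : F ≤ F') (L : IntermediateField F (IntermediateField.extendScalars h)) :
    L ≃+* up h L :=
  (IntermediateField.liftAlgEquiv L).toRingEquiv

private theorem up_step (h : F ≤ F') {L L' : IntermediateField F (IntermediateField.extendScalars h)}
    (hL : L ≤ L') (hG : IsGalois L (IntermediateField.extendScalars hL))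
    (hC : IsCyclic (IntermediateField.extendScalars hL ≃ₐ[L] IntermediateField.extendScalars hL)) :
    ∃ h' : up h L ≤ up h L', IsGalois (up h L) (IntermediateField.extendScalars h') ∧
      IsCyclic (IntermediateField.extendScalars h' ≃ₐ[up h L]
        IntermediateField.extendScalars h') := by
  have h' : up h L ≤ up h L' := by
    rintro _ ⟨x, hx, rfl⟩
    exact ⟨x, hL hx, rfl⟩
  refine ⟨h', ?_⟩
  let f : L ≃+* up h L := upEquiv h L
  let g0 : L' ≃+* up h L' := upEquiv h L'
  let g : IntermediateField.extendScalars hL ≃+* IntermediateField.extendScalars h' := g0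
  have hcomp : (algebraMap (up h L) (IntermediateField.extendScalars h')).comp f =
      (g : IntermediateField.extendScalars hL →+* IntermediateField.extendScalars h').comp
        (algebraMap L (IntermediateField.extendScalars hL)) := by
    ext x
    rfl
  exact ⟨IsGalois.of_equiv_equiv hcomp, isCyclic_transport f g hcomp hC⟩

end Up

theorem IsTowerS.isTowerP {k E : Type*} [Field k] [Field E] [Algebra k E] [FiniteDimensional k E]
    {P : ℕ → Prop} (h : IsTowerS k E P) : IsTowerP k E P := by
  obtain ⟨r, F, h0, hr, hF⟩ := h
  suffices key : ∀ j ≤ r, ∃ (R : ℕ) (G : ℕ → IntermediateField k E), G 0 = ⊥ ∧ G R = F j ∧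
      ∀ i < R, ∃ h : G i ≤ G (i + 1), (IsGalois (G i) (IntermediateField.extendScalars h) ∧
        IsCyclic (IntermediateField.extendScalars h ≃ₐ[G i] IntermediateField.extendScalars h)) ∨
        P (finrank (G i) (IntermediateField.extendScalars h)) by
    obtain ⟨R, G, hG0, hGR, hG⟩ := key r le_rfl
    exact ⟨R, G, hG0, by rw [hGR, hr], hG⟩
  intro j
  induction j with
  | zero =>
    intro _
    exact ⟨0, fun _ => ⊥, rfl, h0.symm, fun i hi => absurd hi (Nat.not_lt_zero i)⟩
  | succ j ih =>
    intro hj
    obtain ⟨R, G, hG0, hGR, hG⟩ := ih (by omega)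
    obtain ⟨h, hGP⟩ := hF j (by omega)
    -- a chain from `F j` to `F (j + 1)`
    obtain ⟨s, U, hU0, hUs, hU⟩ : ∃ (s : ℕ) (U : ℕ → IntermediateField k E), U 0 = F j ∧
        U s = F (j + 1) ∧
        ∀ i < s, ∃ h : U i ≤ U (i + 1), (IsGalois (U i) (IntermediateField.extendScalars h) ∧
          IsCyclic (IntermediateField.extendScalars h ≃ₐ[U i] IntermediateField.extendScalars h)) ∨
          P (finrank (U i) (IntermediateField.extendScalars h)) := by
      rcases hGP with ⟨hGal, hS⟩ | hPx
      · obtain ⟨s, L, hL0, hLs, hL⟩ := isCyclicTower_of_isSolvable hS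
        refine ⟨s, fun i => up h (L i), ?_, ?_, fun i hi => ?_⟩
        · change up h (L 0) = F j
          rw [hL0, up_bot]
        · change up h (L s) = F (j + 1)
          rw [hLs, up_top]
        · obtain ⟨h1, h2, h3⟩ := hL i hi
          obtain ⟨h4, h5, h6⟩ := up_step h h1 h2 h3
          exact ⟨h4, Or.inl ⟨h5, h6⟩⟩
      · refine ⟨1, fun i => Nat.casesOn i (F j) (fun _ => F (j + 1)), rfl, rfl, fun i hi => ?_⟩
        obtain rfl : i = 0 := by omega
        exact ⟨h, Or.inr hPx⟩
    -- concatenation
    refine ⟨R + s, fun i => if i < R then G i else U (i - R), ?_, ?_, fun i hi => ?_⟩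
    · by_cases hR : 0 < R
      · simp only [if_pos hR, hG0]
      · obtain rfl : R = 0 := by omega
        simp only [if_neg hR, Nat.sub_zero, hU0, ← hGR, hG0]
    · have h1 : ¬ R + s < R := by omega
      simp only [if_neg h1, Nat.add_sub_cancel_left, hUs]
    · change St P (if i < R then G i else U (i - R)) (if i + 1 < R then G (i + 1) else U (i + 1 - R))
      by_cases hiR : i < R
      · by_cases hiR' : i + 1 < R
        · rw [if_pos hiR, if_pos hiR']
          exact hG i hiR
        · have h2 : i + 1 = R := by omega
          have h3 : U (i + 1 - R) = G (i + 1) := by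
            rw [h2, Nat.sub_self, hU0, hGR]
          rw [if_pos hiR, if_neg hiR', h3]
          exact hG i hiR
      · have h1 : ¬ i + 1 < R := by omega
        have h2 : i + 1 - R = i - R + 1 := by omega
        rw [if_neg hiR, if_neg h1, h2]
        exact hU (i - R) (by omega)

end Pool.Agent.H20.SXA
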