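import Pool.Agent.H20.SXA.Main
import Pool.Agent.H20.SXA.Refine

/-!
# Algebras which contain a tower, final form
-/

open Module Matrix

universe u

namespace Pool.Agent.H20.SXA

open Pool.Agent.H72.SB Pool.Agent.H49.Cyc Pool.Agent.H78.TT Pool.Agent.H72.TW Pool.Agent.H20.SX

variable {k : Type u} [Field k] {n : ℕ}

/-- `A = M_1(A)`. -/
def oneEquiv (R : Type*) [Ring R] [Algebra k R] : R ≃ₐ[k] Matrix (Fin 1) (Fin 1) R where
  toFun a := Matrix.of fun _ _ => a
  invFun M := M 0 0
  left_inv _ := rfl
  right_inv M := by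
    ext i j
    rw [Subsingleton.elim i 0, Subsingleton.elim j 0]
    rfl
  map_mul' a b := by
    ext i j
    simp [Matrix.mul_apply]
  map_add' a b := rfl
  commutes' c := by
    ext i j
    rw [Subsingleton.elim i 0, Subsingleton.elim j 0]
    simp [Matrix.algebraMap_matrix_apply]

theorem same_iff_contains {A B : CSA.{u, u} k} {m d : ℕ} (hA : finrank k A = n ^ 2)
    (hB : finrank k B = n ^ 2) {E : Type u} [Field E] [Algebra k E]
    (hE : n = d * finrank k E) [Algebra.IsSeparable k E] {i j : ℤ}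
    (hT : IsTowerS k E (PM i)) (φ : E →ₐ[k] A) (hd : PM i d) (hAB : IsMultiple A i B)
    (hBA : IsMultiple B j A) (hm : 1 ≤ m) (hmn : m < n) (hg : PM i (Nat.gcd m n)) :
    (∃ (F : Type u) (_ : Field F) (_ : Algebra k F), IsFunctionField A m F ∧
      IsFunctionField B m F) ∧
    ∀ (F : Type u) [Field F] [Algebra k F], IsFunctionField A m F ↔ IsFunctionField B m F := by
  have hE0 : finrank k E ≠ 0 := by
    intro h0
    rw [h0, mul_zero] at hE
    omega
  have : FiniteDimensional k E := FiniteDimensional.of_finrank_pos (Nat.pos_of_ne_zero hE0)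
  exact same_iff_towerP (C := A) (r := 1) hA hB (by rw [hA, hE]) hT.isTowerP φ hd
    (oneEquiv A) hAB hBA hm hmn hg

end Pool.Agent.H20.SXA
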