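import Pool.Agent.H20.SXA.Defs

/-!
# The tower of layers of a chain of fields

As `Pool.Agent.H72.TW.Fields`, but the roots `θ` are finer than the values of the generator `α` of
`E`: `ε i α` is a rational function of `θ i`, and every embedding of `E` is `ε i` for `d` indices `i`.
The top layer is of any type, from `ε i α` to `θ i`. A step `F ≤ F'` of a degree `x` with the property
`P` gives a layer of any type: an embedding of `F` has `x` extensions to `F'`.
-/

open Module

namespace Pool.Agent.H20.SXA

open Pool.Agent.H78.TT Pool.Agent.H72.TW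

variable {k E Ω : Type*} [Field k] [Field E] [Algebra k E] [Field Ω] [Algebra k Ω] {n : ℕ}

/-- Rational functions of rational functions. -/
private theorem r1_trans {θ θ₀ φ : Fin n → Ω} {K : IntermediateField k Ω} (h₀ : R1 θ K θ₀)
    (h : R1 θ₀ K φ) : R1 θ K φ := by
  obtain ⟨Q, hQ⟩ := h₀
  obtain ⟨P, hP⟩ := h
  refine ⟨MvPolynomial.bind₁ (fun _ => Q) P, fun x => ?_⟩
  rw [MvPolynomial.aeval_bind₁, ← hQ x, hP x]
  have h1 : (fun a => θ₀ (x a)) = fun _ : Fin 1 => θ₀ (x 0) := by
    funext a
    rw [Subsingleton.elim a 0]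
  rw [h1]

/-- Values of an element of `E` are rational functions of one index. -/
private theorem r1_of_mem [FiniteDimensional k E] {α : E}
    (hα : IntermediateField.adjoin k {α} = ⊤) (ε : Fin n → E →ₐ[k] Ω) (γ : E) :
    R1 (fun i => ε i α) (⊥ : IntermediateField k Ω) (fun i => ε i γ) := by
  have hint : IsIntegral k α := Algebra.IsIntegral.isIntegral α
  have h1 : γ ∈ Algebra.adjoin k {α} := by
    have h2 : (IntermediateField.adjoin k {α}).toSubalgebra = Algebra.adjoin k {α} :=
      IntermediateField.adjoin_simple_toSubalgebra_of_isAlgebraic hint.isAlgebraic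
    rw [← h2, hα]
    exact IntermediateField.mem_top
  rw [Algebra.adjoin_singleton_eq_range_aeval] at h1
  obtain ⟨p, hp⟩ := h1
  have hp' : Polynomial.aeval α p = γ := hp
  refine ⟨Polynomial.eval₂ ((MvPolynomial.C).comp (algebraMap k (⊥ : IntermediateField k Ω)))
    (MvPolynomial.X 0) p, fun x => ?_⟩
  have h3 : ε (x 0) γ = Polynomial.eval₂ (algebraMap k Ω) (ε (x 0) α) p := by
    rw [← hp', ← Polynomial.aeval_def, Polynomial.aeval_algHom_apply]
  change ε (x 0) γ = MvPolynomial.aeval (fun a => ε (x a) α) _
  rw [h3]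
  have h4 : MvPolynomial.aeval (fun a => ε (x a) α)
      (Polynomial.eval₂ ((MvPolynomial.C).comp (algebraMap k (⊥ : IntermediateField k Ω)))
        (MvPolynomial.X 0) p : MvPolynomial (Fin 1) (⊥ : IntermediateField k Ω)) =
      Polynomial.eval₂ (((MvPolynomial.aeval (fun a : Fin 1 => ε (x a) α) :
        MvPolynomial (Fin 1) (⊥ : IntermediateField k Ω) →ₐ[(⊥ : IntermediateField k Ω)] Ω).toRingHom).comp
        ((MvPolynomial.C).comp (algebraMap k (⊥ : IntermediateField k Ω))))
        (MvPolynomial.aeval (fun a : Fin 1 => ε (x a) α)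
          (MvPolynomial.X 0 : MvPolynomial (Fin 1) (⊥ : IntermediateField k Ω))) p :=
    Polynomial.hom_eval₂ p _ (MvPolynomial.aeval (fun a : Fin 1 => ε (x a) α)).toRingHom
      (MvPolynomial.X 0)
  rw [h4]
  congr 1
  · ext c
    change _ = MvPolynomial.aeval (fun a : Fin 1 => ε (x a) α)
      (MvPolynomial.C (algebraMap k (⊥ : IntermediateField k Ω) c))
    rw [MvPolynomial.aeval_C]
    rfl
  · rw [MvPolynomial.aeval_X]

/-- Two embeddings which agree on a generator agree on the field. -/
private theorem eq_on {F : IntermediateField k E} {β : E}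
    (hβ : IntermediateField.adjoin k {β} = F) {f g : E →ₐ[k] Ω} (h : f β = g β) :
    ∀ x ∈ F, f x = g x := by
  intro x hx
  have h1 : f.comp F.val = g.comp F.val := by
    refine IntermediateField.algHom_ext_of_eq_adjoin k hβ.symm ?_
    intro y hy
    rw [Set.mem_singleton_iff] at hy
    subst hy
    exact h
  exact DFunLike.congr_fun h1 ⟨x, hx⟩

/-- Extension of an embedding. -/
private theorem exists_ext [IsAlgClosed Ω] [FiniteDimensional k E] {F : IntermediateField k E}
    (L : IntermediateField F E) (f : L →+* Ω)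
    (hf : ∀ c : k, f (algebraMap k L c) = algebraMap k Ω c) :
    ∃ g : E →ₐ[k] Ω, ∀ x : L, g (x : E) = f x := by
  let _ : Algebra L Ω := f.toAlgebra
  let g : E →ₐ[L] Ω := IsAlgClosed.lift
  have hg : ∀ x : L, g (x : E) = f x := fun x => g.commutes x
  let g' : E →ₐ[k] Ω := { (g : E →+* Ω) with
    commutes' := fun c => (hg (algebraMap k L c)).trans (hf c) }
  exact ⟨g', hg⟩

/-- The number of extensions. -/
private theorem card_ext [IsAlgClosed Ω] [FiniteDimensional k E] [Algebra.IsSeparable k E]
    {ε : Fin n → E →ₐ[k] Ω} (hε : Function.Surjective ε) {F F' : IntermediateField k E}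
    (h : F ≤ F') {β β' : E} (hβ : IntermediateField.adjoin k {β} = F)
    (hβ' : IntermediateField.adjoin k {β'} = F') (i : Fin n) :
    Set.ncard ((fun l => ε l β') '' {l | ε l β = ε i β}) =
      finrank F (IntermediateField.extendScalars h) := by
  classical
  have hβF : β ∈ F := by
    rw [← hβ]
    exact IntermediateField.mem_adjoin_simple_self k β
  have hβF' : β' ∈ IntermediateField.extendScalars h := by
    rw [IntermediateField.mem_extendScalars, ← hβ']
    exact IntermediateField.mem_adjoin_simple_self k β'
  let _ : Algebra F Ω := (((ε i : E →ₐ[k] Ω) : E →+* Ω).comp (algebraMap F E)).toAlgebra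
  have hF : ∀ x : F, algebraMap F Ω x = ε i (x : E) := fun _ => rfl
  have hsep1 : Algebra.IsSeparable F E := Algebra.isSeparable_tower_top_of_isSeparable k F E
  have hsep : Algebra.IsSeparable F (IntermediateField.extendScalars h) :=
    Algebra.isSeparable_tower_bot_of_isSeparable F (IntermediateField.extendScalars h) E
  have hcard : Nat.card (IntermediateField.extendScalars h →ₐ[F] Ω) =
      finrank F (IntermediateField.extendScalars h) := by
    rw [Nat.card_eq_fintype_card, AlgHom.card]
  let ev : (IntermediateField.extendScalars h →ₐ[F] Ω) → Ω := fun g => g ⟨β', hβF'⟩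
  -- extension to `E`
  have hext : ∀ g : IntermediateField.extendScalars h →ₐ[F] Ω, ∃ l, ∀ x :
      IntermediateField.extendScalars h, ε l (x : E) = g x := by
    intro g
    obtain ⟨g', hg'⟩ := exists_ext (k := k) (IntermediateField.extendScalars h)
      (g : IntermediateField.extendScalars h →+* Ω) (by
        intro c
        have h1 := g.commutes (algebraMap k F c)
        rw [hF] at h1
        have h2 : ε i ((algebraMap k F c : F) : E) = algebraMap k Ω c := (ε i).commutes c
        rw [h2] at h1
        exact h1)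
    obtain ⟨l, hl⟩ := hε g'
    exact ⟨l, fun x => by rw [hl]; exact hg' x⟩
  have hinj : Function.Injective ev := by
    intro g g' hgg
    obtain ⟨l, hl⟩ := hext g
    obtain ⟨l', hl'⟩ := hext g'
    have h1 : ε l β' = ε l' β' := by
      have h2 := hl ⟨β', hβF'⟩
      have h3 := hl' ⟨β', hβF'⟩
      exact h2.trans (Eq.trans hgg h3.symm)
    ext x
    rw [← hl x, ← hl' x]
    exact eq_on hβ' h1 _ x.2
  have himg : (fun l => ε l β') '' {l | ε l β = ε i β} = Set.range ev := by
    ext y
    constructor
    · rintro ⟨l, hl, rfl⟩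
      have h1 : ∀ x ∈ F, ε l x = ε i x := eq_on hβ hl
      let g : IntermediateField.extendScalars h →ₐ[F] Ω :=
        { ((ε l : E →ₐ[k] Ω) : E →+* Ω).comp
            ((IntermediateField.extendScalars h).val :
              IntermediateField.extendScalars h →+* E) with
          commutes' := fun x => h1 x x.2 }
      exact ⟨g, rfl⟩
    · rintro ⟨g, rfl⟩
      obtain ⟨l, hl⟩ := hext g
      refine ⟨l, ?_, hl ⟨β', hβF'⟩⟩
      have h1 := hl ⟨β, h hβF⟩
      have h2 := g.commutes ⟨β, hβF⟩
      change ε l β = ε i β
      exact h1.trans h2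
  rw [himg, ← Set.image_univ, Set.ncard_image_of_injective _ hinj, Set.ncard_univ, hcard]

private theorem dvd_degree [FiniteDimensional k E] {F F' : IntermediateField k E} (h : F ≤ F') :
    finrank F (IntermediateField.extendScalars h) ∣ finrank k E := by
  rw [← finrank_mul_finrank k F E, ← finrank_mul_finrank F (IntermediateField.extendScalars h) E]
  exact (Dvd.intro _ rfl).mul_left _

theorem towA_of_tower [IsAlgClosed Ω] [FiniteDimensional k E] [Algebra.IsSeparable k E] {m : ℕ}
    (hm : m.Coprime (finrank k E)) {P : ℕ → Prop}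
    (hP : ∀ x, x ∣ finrank k E → P x → ((x : ℤ) ∣ (m : ℤ) - 1 ∨ (x : ℤ) ∣ (m : ℤ) + 1))
    (hT : IsTowerP k E P) {α : E} (hα : IntermediateField.adjoin k {α} = ⊤) {θ : Fin n → Ω}
    (hθ : Function.Injective θ) {ε : Fin n → E →ₐ[k] Ω} (hε : Function.Surjective ε)
    (hr : R1 θ (⊥ : IntermediateField k Ω) (fun i => ε i α)) {d : ℕ}
    (hd : ∀ e, Set.ncard {i | ε i = e} = d)
    (hdm : (d : ℤ) ∣ (m : ℤ) - 1 ∨ (d : ℤ) ∣ (m : ℤ) + 1) :
    TowA k θ m (fun _ => 0) := by
  classical
  obtain ⟨r, F, h0, hr', hF⟩ := hT
  have hprim : ∀ j, ∃ β : E, IntermediateField.adjoin k {β} = F j := by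
    intro j
    obtain ⟨a, ha⟩ := Field.exists_primitive_element k (F j)
    refine ⟨(a : E), ?_⟩
    rw [← IntermediateField.lift_adjoin_simple, ha, IntermediateField.lift_top]
  choose β' hβ' using hprim
  let β : ℕ → E := fun j => if j = 0 then 0 else β' j
  have hβ : ∀ j, IntermediateField.adjoin k {β j} = F j := by
    intro j
    by_cases hj : j = 0
    · subst hj
      have h1 : β 0 = 0 := if_pos rfl
      rw [h1, h0]
      exact IntermediateField.adjoin_zero
    · have h1 : β j = β' j := if_neg hj
      rw [h1]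
      exact hβ' j
  have hR : ∀ γ : E, R1 θ (⊥ : IntermediateField k Ω) (fun i => ε i γ) := fun γ =>
    r1_trans hr (r1_of_mem hα ε γ)
  have hfine : ∀ j i l, ε i (β (j + 1)) = ε l (β (j + 1)) → F j ≤ F (j + 1) →
      ε i (β j) = ε l (β j) := by
    intro j i l hil hle
    refine eq_on (hβ (j + 1)) hil _ (hle ?_)
    rw [← hβ j]
    exact IntermediateField.mem_adjoin_simple_self k _
  have key : ∀ s ≤ r, TowA k θ m (fun i => ε i (β (r - s))) := by
    intro s
    induction s with
    | zero =>
      intro _
      refine TowA.any (c' := θ) (d := d) ⟨?_, ?_, ?_⟩ hdm (hR _) (TowA.top hθ)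
      · exact isR_theta (0 : Fin 1)
      · intro i j hij
        rw [hθ hij]
      · intro i
        rw [Set.ncard_image_of_injective _ hθ, ← hd (ε i)]
        congr 1
        ext l
        constructor
        · intro hl
          have hl' : ε l (β r) = ε i (β r) := hl
          change ε l = ε i
          ext x
          refine eq_on (hβ r) hl' x ?_
          rw [hr']
          exact IntermediateField.mem_top
        · intro hl
          have hl' : ε l = ε i := hl
          change ε l (β r) = ε i (β r)
          rw [hl']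
    | succ s ih =>
      intro hs
      have h1 : r - s = r - (s + 1) + 1 := by omega
      obtain ⟨h, hGP⟩ := hF (r - (s + 1)) (by omega)
      have hih := ih (by omega)
      rw [h1] at hih
      rcases hGP with ⟨hG, hC⟩ | hPx
      · obtain ⟨S, q, hq, hL⟩ := exists_layer hα hε h hG hC (hβ (r - (s + 1)))
          (hβ (r - (s + 1) + 1))
        exact TowA.step (S := S) (d := q) ⟨r1_trans hr hL.rat, r1_trans hr hL.ratS, hL.fine,
          hL.shift, hL.coarse, hL.per, hL.trans⟩ (Nat.Coprime.coprime_dvd_right hq hm) (hR _) hih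
      · refine TowA.any (c' := fun i => ε i (β (r - (s + 1) + 1)))
          (d := finrank (F (r - (s + 1))) (IntermediateField.extendScalars h))
          ⟨hR _, fun i l hil => hfine _ i l hil h, fun i => ?_⟩ (hP _ ?_ hPx) (hR _) hih
        · exact card_ext hε h (hβ _) (hβ _) i
        · exact dvd_degree h
  have h1 := key r le_rfl
  rw [Nat.sub_self] at h1
  have h2 : (fun i => ε i (β 0)) = (fun _ => (0 : Ω)) := by
    funext i
    have h3 : β 0 = 0 := if_pos rfl
    rw [h3, map_zero]
  rw [h2] at h1
  exact h1

end Pool.Agent.H20.SXA
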