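import Pool.Agent.H20.SX.Fin

/-!
# Function fields, from line maps for good exponents
-/

open Module Matrix

universe u

namespace Pool.Agent.H20.SXA

open Pool.Agent.H72.SB Pool.Agent.H49.Cyc Pool.Agent.H78.TT Pool.Agent.H20.SX

variable {k : Type u} [Field k] {n m : ℕ}

/-- `x` is `1`, `2`, `3`, `4` or `6`, or divides `i - 1` or `i + 1`. -/
def PM (i : ℤ) (x : ℕ) : Prop :=
  (x = 1 ∨ x = 2 ∨ x = 3 ∨ x = 4 ∨ x = 6) ∨ (x : ℤ) ∣ i - 1 ∨ (x : ℤ) ∣ i + 1

/-- The exponent `r` is `1` or `-1` modulo all divisors of `n` with the property `P`. -/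
def Good (n : ℕ) (P : ℕ → Prop) (r : ℕ) : Prop :=
  r.Coprime n ∧ ∀ x, x ∣ n → P x → ((x : ℤ) ∣ (r : ℤ) - 1 ∨ (x : ℤ) ∣ (r : ℤ) + 1)

theorem Good.neg {P : ℕ → Prop} {r : ℕ} (hn1 : 1 ≤ n) (h : Good n P r) :
    Good n P ((n - 1) * r) := by
  refine ⟨?_, fun x hx hP => ?_⟩
  · refine Nat.Coprime.mul_left ?_ h.1
    have : (n - 1).Coprime (n - 1 + 1) := by simp
    rwa [Nat.sub_add_cancel hn1] at this
  · have hxn : (x : ℤ) ∣ (n : ℤ) := Int.natCast_dvd_natCast.2 hx
    rcases h.2 x hx hP with h1 | h1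
    · right
      have h4 := dvd_sub (hxn.mul_left (r : ℤ)) h1
      rwa [show (((n - 1) * r : ℕ) : ℤ) + 1 = (r : ℤ) * (n : ℤ) - ((r : ℤ) - 1) by
        rw [Nat.cast_mul, Nat.cast_sub hn1]; push_cast; ring]
    · left
      have h4 := dvd_sub (hxn.mul_left (r : ℤ)) h1
      rwa [show (((n - 1) * r : ℕ) : ℤ) - 1 = (r : ℤ) * (n : ℤ) - ((r : ℤ) + 1) by
        rw [Nat.cast_mul, Nat.cast_sub hn1]; push_cast; ring]

/-- A good multiple. -/
theorem exists_good [Infinite k] {A B : CSA.{u, u} k} (hA : finrank k A = n ^ 2) {i j : ℤ}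
    (hAB : IsMultiple A i B) (hBA : IsMultiple B j A) :
    ∃ r : ℕ, Good n (PM i) r ∧ IsMultiple A (r : ℤ) B := by
  classical
  have hn : n ≠ 0 := ne_zero_of_finrank hA
  -- the product of the divisors of `n` prime to `i`
  let y : ℤ := ∏ x ∈ n.divisors.filter (fun x : ℕ => IsCoprime i (x : ℤ)), (x : ℤ)
  have hy : IsCoprime i y := IsCoprime.prod_right fun x hx => (Finset.mem_filter.1 hx).2
  have hx : IsMultiple A (i * j + -1) (kCSA k) := (hAB.trans hBA).sub_one
  have h1 : IsCoprime i (y * (i * j + -1)) := by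
    refine IsCoprime.mul_right hy ⟨j, -1, ?_⟩
    ring
  obtain ⟨t, ht⟩ := exists_coprime_shift h1 hn
  have h2 : IsMultiple A (i + (t * y) * (i * j + -1)) B := hAB.add (hx.smul _)
  obtain ⟨i', hi'⟩ : ∃ i', i + (t * y) * (i * j + -1) = i' := ⟨_, rfl⟩
  rw [hi'] at h2
  have h3 : i + t * (y * (i * j + -1)) = i' := by rw [← hi']; ring
  rw [h3] at ht
  have hn' : (0 : ℤ) < n := by positivity
  let r : ℕ := (i' % n).toNat
  have hr : (r : ℤ) = i' % n := Int.toNat_of_nonneg (Int.emod_nonneg _ hn'.ne')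
  have hdiv := Int.emod_add_mul_ediv i' n
  have hco : r.Coprime n := by
    rw [← Nat.isCoprime_iff_coprime, hr]
    have h4 : i' % n = i' + n * (-(i' / n)) := by linarith
    rw [h4]
    exact IsCoprime.add_mul_left_left_iff.2 ht
  have hmod : ∀ x, x ∣ n → IsCoprime i (x : ℤ) → (x : ℤ) ∣ (r : ℤ) - i := by
    intro x hx hix
    have h4 : (r : ℤ) - i = y * (t * (i * j + -1)) + n * (-(i' / n)) := by
      rw [hr]
      have : i' % n = i' - n * (i' / n) := by linarith
      rw [this, ← hi']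
      ring
    rw [h4]
    have hxy : (x : ℤ) ∣ y := Finset.dvd_prod_of_mem (fun x : ℕ => (x : ℤ))
      (Finset.mem_filter.2 ⟨Nat.mem_divisors.2 ⟨hx, hn⟩, hix⟩)
    exact dvd_add (hxy.mul_right _) ((Int.natCast_dvd_natCast.2 hx).mul_right _)
  refine ⟨r, ⟨hco, fun x hx hP => ?_⟩, ?_⟩
  · rcases hP with h | h
    · have hrg : r.Coprime x := hco.coprime_dvd_right hx
      by_cases hr0 : r = 0
      · rw [hr0, Nat.coprime_zero_left] at hrg
        rw [hrg]
        left
        simp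
      · rcases dvd_of_small hrg hr0 h with h3 | h3
        · left
          have := Int.natCast_dvd_natCast.2 h3
          rwa [Nat.cast_sub (by omega), Nat.cast_one] at this
        · right
          exact_mod_cast h3
    · have h1 := hmod x hx (coprime_of_dvd h)
      rcases h with h | h
      · left
        have := dvd_add h1 h
        rwa [show (r : ℤ) - i + (i - 1) = r - 1 by ring] at this
      · right
        have := dvd_add h1 h
        rwa [show (r : ℤ) - i + (i + 1) = r + 1 by ring] at this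
  · have h4 : IsMultiple A (i' + (-(i' / n)) * n) B := h2.add ((isMultiple_n hA).smul _)
    rw [hr]
    rwa [show i' % n = i' + (-(i' / n)) * n by linarith]

theorem common_SA [Infinite k] {A B : CSA.{u, u} k} (hA : finrank k A = n ^ 2)
    (hB : finrank k B = n ^ 2) (hm : 1 ≤ m) (hmn : m < n) {P : ℕ → Prop}
    (hL : ∀ r : ℕ, Good n P r → HasLine A n (r : ℤ)) {r : ℕ} (hr : Good n P r)
    (hAB : IsMultiple A (r : ℤ) B) (hP : P (Nat.gcd m n)) :
    ∃ (F : Type u) (_ : Field F) (_ : Algebra k F), IsFunctionField A m F ∧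
      IsFunctionField B m F := by
  rcases hr.2 _ (Nat.gcd_dvd_right m n) hP with hg | hg
  · exact common_oneS hA hB hm hmn (hL r hr) hAB hg
  · have hn1 : 1 ≤ n := by omega
    have h2 : IsMultiple A (-(r : ℤ)) (opCSA B) := .inv r B (opCSA B) hAB ⟨AlgEquiv.refl⟩
    have h2' : IsMultiple A (((n - 1) * r : ℕ) : ℤ) (opCSA B) := by
      have h3 := h2.add ((isMultiple_n hA).smul (r : ℤ))
      rwa [show (((n - 1) * r : ℕ) : ℤ) = -(r : ℤ) + (r : ℤ) * (n : ℤ) by
        rw [Nat.cast_mul, Nat.cast_sub hn1]; push_cast; ring]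
    have hB' : finrank k (opCSA B) = n ^ 2 := by
      rw [← hB]
      exact (MulOpposite.opLinearEquiv k).finrank_eq.symm
    have hgn : (Nat.gcd m n : ℤ) ∣ n := Int.natCast_dvd_natCast.2 (Nat.gcd_dvd_right m n)
    have hg' : (Nat.gcd m n : ℤ) ∣ (((n - 1) * r : ℕ) : ℤ) - 1 := by
      have h4 := dvd_sub (hgn.mul_left (r : ℤ)) hg
      rwa [show (((n - 1) * r : ℕ) : ℤ) - 1 = (r : ℤ) * (n : ℤ) - ((r : ℤ) + 1) by
        rw [Nat.cast_mul, Nat.cast_sub hn1]; push_cast; ring]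
    obtain ⟨F, i1, i2, h4, h5⟩ := common_oneS hA hB' hm hmn (hL _ (hr.neg hn1)) h2' hg'
    exact ⟨F, i1, i2, h4, (op_iff (A := B) (B := opCSA B) hB hm hmn AlgEquiv.refl F).2 h5⟩

/-- All fields `k`. -/
theorem same_iff_SA {A B : CSA.{u, u} k} (hA : finrank k A = n ^ 2)
    (hB : finrank k B = n ^ 2) (hm : 1 ≤ m) (hmn : m < n) {i j : ℤ}
    (hL : Infinite k → ∀ r : ℕ, Good n (PM i) r → HasLine A n (r : ℤ))
    (hAB : IsMultiple A i B) (hBA : IsMultiple B j A) (hg : PM i (Nat.gcd m n)) :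
    (∃ (F : Type u) (_ : Field F) (_ : Algebra k F), IsFunctionField A m F ∧
      IsFunctionField B m F) ∧
    ∀ (F : Type u) [Field F] [Algebra k F], IsFunctionField A m F ↔ IsFunctionField B m F := by
  rcases finite_or_infinite k with hk | hk
  · obtain ⟨e⟩ := nonempty_algEquiv_of_finite A B (by rw [hA, hB])
    obtain ⟨F, i1, i2, hF⟩ := exists_functionField A hA hmn.le
    exact ⟨⟨F, i1, i2, hF, hF.congr e⟩, fun F _ _ => ⟨fun h => h.congr e, fun h => h.congr e.symm⟩⟩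
  · obtain ⟨r, hr, hr1⟩ := exists_good hA hAB hBA
    obtain ⟨F₀, i1, i2, h1, h2⟩ := common_SA hA hB hm hmn (hL hk) hr hr1 hg
    refine ⟨⟨F₀, i1, i2, h1, h2⟩, fun F _ _ => ⟨fun h3 => ?_, fun h3 => ?_⟩⟩
    · obtain ⟨e⟩ := functionField_unique A hA (by omega) h1 h3
      exact h2.congr_field e
    · obtain ⟨e⟩ := functionField_unique B hB (by omega) h2 h3
      exact h1.congr_field e

end Pool.Agent.H20.SXA
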