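import Pool.Agent.H20.SXA.Defs

/-!
# The map of lines of a tower with layers of any type
-/

open Module

namespace Pool.Agent.H20.SXA

open Pool.Agent.H78.TT Pool.Agent.H72.TW Pool.Agent.H72.SB

variable {k Ω : Type*} [Field k] [Field Ω] [Algebra k Ω] {n : ℕ}
variable {θ : Fin n → Ω} {K K₀ : IntermediateField k Ω} {c c' t : Fin n → Ω}
  {w : Fin n → Fin n → Ω} {d m : ℕ}

/-- Representatives of the classes of `c'` in the class of `i` for `c`. -/
structure Enum (c c' : Fin n → Ω) (d : ℕ) (e : Fin n → Fin d → Fin n) : Prop where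
  same : ∀ i j, c i = c j → e i = e j
  mem : ∀ i q, c (e i q) = c i
  inj : ∀ i, Function.Injective (fun q => c' (e i q))
  all : ∀ i l, c l = c i → ∃ q, c' l = c' (e i q)

theorem LayerA.exists_enum (L : LayerA k θ c c' d) : ∃ e, Enum c c' d e := by
  classical
  have key : ∀ x : Set.range c, ∃ e : Fin d → Fin n, (∀ q, c (e q) = x.1) ∧
      Function.Injective (fun q => c' (e q)) ∧ ∀ l, c l = x.1 → ∃ q, c' l = c' (e q) := by
    rintro ⟨_, ⟨i, rfl⟩⟩
    have h1 := L.card i
    have hfin : (c' '' {l | c l = c i}).Finite := Set.toFinite _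
    have h2 : Nat.card (c' '' {l | c l = c i}) = d := h1
    have : Fintype (c' '' {l | c l = c i}) := Fintype.ofFinite _
    rw [Nat.card_eq_fintype_card] at h2
    let E := (Fintype.equivFinOfCardEq h2).symm
    have h3 : ∀ q, ∃ l, c l = c i ∧ c' l = (E q).1 := fun q => (E q).2
    choose e he1 he2 using h3
    refine ⟨e, he1, fun q q' hq => ?_, fun l hl => ?_⟩
    · have hq' : c' (e q) = c' (e q') := hq
      rw [he2, he2] at hq'
      exact E.injective (Subtype.ext hq')
    · refine ⟨E.symm ⟨c' l, l, hl, rfl⟩, ?_⟩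
      rw [he2, Equiv.apply_symm_apply]
  choose e he using key
  refine ⟨fun i => e ⟨c i, i, rfl⟩, ⟨fun i j h => ?_, fun i q => (he _).1 q, fun i => (he _).2.1,
    fun i l h => (he _).2.2 l h⟩⟩
  have h1 : (⟨c i, i, rfl⟩ : Set.range c) = ⟨c j, j, rfl⟩ := Subtype.ext h
  rw [h1]

/-- The product over the classes in a class is rational. -/
theorem norm_rat [Infinite k] (hp : Pol k θ) (hθ : Function.Injective θ)
    (L : LayerA k θ c c' d) (hc : R1 θ (⊥ : IntermediateField k Ω) c)
    {e : Fin n → Fin d → Fin n} (he : Enum c c' d e) {G : Fin n → Fin n → Fin n → Ω}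
    (hG : IsR θ K (Fin 3) (fun x => G (x 0) (x 1) (x 2)))
    (hcl : ∀ i j l l', c' l = c' l' → G i j l = G i j l') :
    R2 θ K (fun i j => ∏ q, G i j (e i q)) := by
  classical
  obtain ⟨b, hb, hb1⟩ := exists_tr (k := k) hp hθ L.rat
  have key : ∀ G : Fin n → Fin n → Fin n → Ω,
      (∀ i j l l', c' l = c' l' → G i j l = G i j l') → ∀ i j,
      (Matrix.of fun a a' : Fin d => ∑ l, ind c c i l * b l * c' l ^ ((a : ℕ) + a') *
        G i j l).det = (Matrix.vandermonde fun q => c' (e i q)).det ^ 2 * ∏ q, G i j (e i q) := by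
    intro G hcl i j
    have h1 : (Matrix.of fun a a' : Fin d => ∑ l, ind c c i l * b l * c' l ^ ((a : ℕ) + a') *
        G i j l) = (Matrix.vandermonde fun q => c' (e i q)).transpose *
          Matrix.diagonal (fun q => G i j (e i q)) * Matrix.vandermonde fun q => c' (e i q) := by
      ext a a'
      rw [Matrix.mul_apply]
      simp only [Matrix.mul_diagonal, Matrix.transpose_apply, Matrix.vandermonde_apply,
        Matrix.of_apply]
      have h2 : ∀ l, ind c c i l = ∑ q, ind c' c' (e i q) l := by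
        intro l
        by_cases h : c i = c l
        · obtain ⟨q, hq⟩ := he.all i l h.symm
          rw [ind_pos h, Finset.sum_eq_single q]
          · rw [ind_pos hq.symm]
          · intro q' _ hq'
            rw [ind_neg]
            intro h3
            exact hq' (he.inj i (h3.trans hq))
          · intro h3
            exact absurd (Finset.mem_univ _) h3
        · rw [ind_neg h]
          symm
          refine Finset.sum_eq_zero fun q _ => ind_neg fun h3 => h ?_
          rw [← he.mem i q]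
          exact L.fine _ _ h3
      calc ∑ l, ind c c i l * b l * c' l ^ ((a : ℕ) + a') * G i j l
          = ∑ l, ∑ q, ind c' c' (e i q) l * b l * c' l ^ ((a : ℕ) + a') * G i j l := by
            refine Finset.sum_congr rfl fun l _ => ?_
            rw [h2 l, Finset.sum_mul, Finset.sum_mul, Finset.sum_mul]
        _ = ∑ q, ∑ l, ind c' c' (e i q) l * b l * c' l ^ ((a : ℕ) + a') * G i j l :=
            Finset.sum_comm
        _ = _ := by
            refine Finset.sum_congr rfl fun q _ => ?_
            have h3 : ∀ l, ind c' c' (e i q) l * b l * c' l ^ ((a : ℕ) + a') * G i j l =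
                (ind c' c' (e i q) l * b l) * (c' (e i q) ^ (a : ℕ) * G i j (e i q) *
                  c' (e i q) ^ (a' : ℕ)) := by
              intro l
              by_cases h : c' (e i q) = c' l
              · rw [← h, hcl i j _ _ h]
                ring
              · rw [ind_neg h]
                ring
            rw [Finset.sum_congr rfl fun l _ => h3 l, ← Finset.sum_mul, hb1, one_mul]
    rw [h1, Matrix.det_mul, Matrix.det_mul, Matrix.det_transpose, Matrix.det_diagonal]
    ring
  have hM : ∀ G : Fin n → Fin n → Fin n → Ω, IsR θ K (Fin 3) (fun x => G (x 0) (x 1) (x 2)) →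
      R2 θ K (fun i j => (Matrix.of fun a a' : Fin d => ∑ l, ind c c i l * b l *
        c' l ^ ((a : ℕ) + a') * G i j l).det) := by
    intro G hG
    refine IsR.det fun a a' => ?_
    have hI : R2 θ K (ind c c) := (R2.ind hp hc hc).mono bot_le
    have h1 : IsR θ K (Fin 3) (fun x => ind c c (x 0) (x 2) * b (x 2) *
        c' (x 2) ^ ((a : ℕ) + a') * G (x 0) (x 1) (x 2)) :=
      (((hI.at 0 2).mul ((hb.mono bot_le).at 2)).mul (((L.rat.mono bot_le).at 2).pow _)).mul hG
    exact IsR.congr (IsR.sum_last hp hθ (r := 2) h1) fun x => rfl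
  have h1 := hM G hG
  have h2 := hM (fun _ _ _ => 1) (isR_const 1 K.one_mem)
  refine (h1.div hp h2).congr fun i j => ?_
  rw [key G hcl i j, key (fun _ _ _ => 1) (fun _ _ _ _ _ => rfl) i j, Finset.prod_const_one,
    mul_one, mul_div_cancel_left₀]
  exact pow_ne_zero _ (Matrix.det_vandermonde_ne_zero_iff.2 (he.inj i))

/-- The sum over two classes. -/
noncomputable def avg (c' : Fin n → Ω) (f w : Fin n → Fin n → Ω) (i l : Fin n) : Ω :=
  ∑ i', ∑ l', ind c' c' i i' * ind c' c' l l' * (f i' l' * w i' l')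

theorem avg_class (f : Fin n → Fin n → Ω) {i j l l' : Fin n} (h : c' i = c' j) (h' : c' l = c' l') :
    avg c' f w i l = avg c' f w j l' := by
  unfold avg
  refine Finset.sum_congr rfl fun a _ => Finset.sum_congr rfl fun b _ => ?_
  rw [ind_congr (c := c') (c'' := c') h, ind_congr (c := c') (c'' := c') h']

theorem exists_avg [Infinite k] (hp : Pol k θ) (hθ : Function.Injective θ)
    (hw : ∀ i j, w i j ≠ 0) :
    ∃ f : Fin n → Fin n → Ω, R2 θ (⊥ : IntermediateField k Ω) f ∧ ∀ i l, avg c' f w i l ≠ 0 := by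
  classical
  let T : Fin n × Fin n → ((Fin 2 → Fin n) → Ω) →ₗ[Ω] Ω := fun p =>
    ∑ i', ∑ l', (ind c' c' p.1 i' * ind c' c' p.2 l' * w i' l') •
      LinearMap.proj (![i', l'] : Fin 2 → Fin n)
  have hTf : ∀ p f, T p f = ∑ i', ∑ l', (ind c' c' p.1 i' * ind c' c' p.2 l' *
      w i' l') * f ![i', l'] := by
    intro p f
    simp only [T, LinearMap.sum_apply, LinearMap.smul_apply, LinearMap.proj_apply, smul_eq_mul]
  obtain ⟨f, hf, hf0⟩ := exists_rat_lin (k := k) hp hθ T (fun p => by
    refine ⟨Pi.single ![p.1, p.2] 1, ?_⟩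
    rw [hTf, Finset.sum_eq_single p.1, Finset.sum_eq_single p.2]
    · rw [ind_pos rfl, ind_pos rfl, Pi.single_eq_same, one_mul, one_mul, mul_one]
      exact hw _ _
    · intro b _ hb
      rw [Pi.single_eq_of_ne, mul_zero]
      intro h
      exact hb (congrFun h 1)
    · intro h
      exact absurd (Finset.mem_univ _) h
    · intro b _ hb
      refine Finset.sum_eq_zero fun l _ => ?_
      rw [Pi.single_eq_of_ne, mul_zero]
      intro h
      exact hb (congrFun h 0)
    · intro h
      exact absurd (Finset.mem_univ _) h)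
  refine ⟨fun i l => f ![i, l], hf.congr fun x => ?_, fun i l => ?_⟩
  · change f ![x 0, x 1] = f x
    congr 1
    funext a
    fin_cases a <;> rfl
  · have h1 := hf0 (i, l)
    rw [hTf] at h1
    intro h2
    apply h1
    rw [← h2]
    unfold avg
    refine Finset.sum_congr rfl fun i' _ => Finset.sum_congr rfl fun l' _ => ?_
    ring

theorem avg_rat (hp : Pol k θ) (hθ : Function.Injective θ) (hw : Coc θ w K)
    {f : Fin n → Fin n → Ω} (hf : R2 θ (⊥ : IntermediateField k Ω) f)
    (hD : On θ c' K w) : R2 θ K (fun i l => avg c' f w i l / w i l) := by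
  have hg1 : IsR θ K (Fin 4) (fun x => w (x 2) (x 0) * w (x 0) (x 1) / w (x 2) (x 1)) :=
    (hw.gam.comp (![2, 0, 1] : Fin 3 → Fin 4)).congr fun x => rfl
  have hg2 : IsR θ K (Fin 4) (fun x => w (x 2) (x 1) * w (x 1) (x 3) / w (x 2) (x 3)) :=
    (hw.gam.comp (![2, 1, 3] : Fin 3 → Fin 4)).congr fun x => rfl
  have h1 : IsR θ K (Fin 4) (fun x =>
      ((ind c' c' (x 2) (x 0) * w (x 2) (x 0)) * (ind c' c' (x 1) (x 3) * w (x 1) (x 3))) *
      f (x 2) (x 3) / ((w (x 2) (x 0) * w (x 0) (x 1) / w (x 2) (x 1)) *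
        (w (x 2) (x 1) * w (x 1) (x 3) / w (x 2) (x 3)))) :=
    (((hD.at 2 0).mul (hD.at 1 3)).mul ((hf.mono bot_le).at 2 3)).div hp (hg1.mul hg2)
  have h2 := IsR.sum_last hp hθ (r := 2) (IsR.sum_last hp hθ (r := 3) h1)
  refine IsR.congr h2 fun x => ?_
  have e0 : ∀ a b : Fin n, (Fin.snoc (Fin.snoc x a : Fin 3 → Fin n) b : Fin 4 → Fin n) 0 = x 0 :=
    fun a b => rfl
  have e1 : ∀ a b : Fin n, (Fin.snoc (Fin.snoc x a : Fin 3 → Fin n) b : Fin 4 → Fin n) 1 = x 1 :=
    fun a b => rfl
  have e2 : ∀ a b : Fin n, (Fin.snoc (Fin.snoc x a : Fin 3 → Fin n) b : Fin 4 → Fin n) 2 = a :=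
    fun a b => rfl
  have e3 : ∀ a b : Fin n, (Fin.snoc (Fin.snoc x a : Fin 3 → Fin n) b : Fin 4 → Fin n) 3 = b :=
    fun a b => rfl
  simp only [e0, e1, e2, e3]
  generalize x 0 = i
  generalize x 1 = l
  unfold avg
  rw [Finset.sum_div]
  refine Finset.sum_congr rfl fun i' _ => ?_
  rw [Finset.sum_div]
  refine Finset.sum_congr rfl fun l' _ => ?_
  by_cases h4 : c' l = c' l'
  · by_cases h5 : c' i = c' i'
    · rw [ind_pos h4, ind_pos h5, ind_pos h5.symm]
      have a1 := hw.ne i' i
      have a2 := hw.ne i l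
      have a3 := hw.ne i' l
      have a4 := hw.ne l l'
      have a5 := hw.ne i' l'
      field_simp
    · rw [ind_neg h5, ind_neg (fun h => h5 h.symm)]
      simp
  · rw [ind_neg h4]
    simp

theorem good_any [Infinite k] (hp : Pol k θ) (hθ : Function.Injective θ)
    (L : LayerA k θ c c' d) (hc : R1 θ (⊥ : IntermediateField k Ω) c) (hw : Coc θ w K₀)
    (hmd : (d : ℤ) ∣ (m : ℤ) - 1 ∨ (d : ℤ) ∣ (m : ℤ) + 1)
    (hG : Good θ w K₀ m c' t) : ∃ t', Good θ w K₀ m c t' := by
  obtain ⟨e, he⟩ := L.exists_enum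
  obtain ⟨f, hf, hf0⟩ := exists_avg (c' := c') hp hθ hw.ne
  obtain ⟨F, hF⟩ : ∃ F : Fin n → Fin n → Ω, F = avg c' f w := ⟨_, rfl⟩
  have hF0 : ∀ i l, F i l ≠ 0 := by rw [hF]; exact hf0
  have hFcl : ∀ i j l l', c' i = c' j → c' l = c' l' → F i l = F j l' := by
    intro i j l l' h h'
    rw [hF]
    exact avg_class f h h'
  have hFr : ∀ K, K₀ ≤ K → On θ c' K w → R2 θ K (fun i l => F i l / w i l) := by
    intro K hK hD
    rw [hF]
    exact avg_rat hp hθ (hw.mono hK) hf hD
  obtain ⟨ψ, hψ⟩ : ∃ ψ : Fin n → Ω, ∀ i, ψ i = ∏ q, F i (e i q) := ⟨_, fun _ => rfl⟩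
  have hψ0 : ∀ i, ψ i ≠ 0 := fun i => by
    rw [hψ]
    exact Finset.prod_ne_zero_iff.2 fun q _ => hF0 _ _
  have hψcl : ∀ i j, c' i = c' j → ψ i = ψ j := by
    intro i j h
    rw [hψ, hψ, he.same i j (L.fine _ _ h)]
    exact Finset.prod_congr rfl fun q _ => hFcl _ _ _ _ h rfl
  have hfine : ∀ {K : IntermediateField k Ω} {F : Fin n → Fin n → Ω}, On θ c K F → On θ c' K F := by
    intro K F hD
    refine (R2.mul ((R2.ind hp L.rat L.rat).mono bot_le) hD).congr fun i l => ?_
    by_cases h : c' i = c' l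
    · rw [ind_pos h, ind_pos (L.fine _ _ h)]
      ring
    · rw [ind_neg h]
      simp
  obtain ⟨z, hz⟩ : ∃ z : ℤ, (m : ℤ) - d * z = 1 ∨ (m : ℤ) - d * z = -1 := by
    rcases hmd with ⟨z, hz⟩ | ⟨z, hz⟩
    · exact ⟨z, Or.inl (by linarith)⟩
    · exact ⟨z, Or.inr (by linarith)⟩
  refine ⟨fun i => t i * ψ i ^ z, fun j => mul_ne_zero (hG.ne j) (zpow_ne_zero _ (hψ0 j)),
    fun K hK hD => ?_, fun K hK hD => ?_⟩
  · have hD' := hfine hD
    have h1 : R2 θ K (fun i l => ind c c i l * F i l) := by
      refine ((hFr K hK hD').mul hD).congr fun i l => ?_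
      have a1 := hw.ne i l
      field_simp
    have h2 := norm_rat hp hθ L hc he (K := K) (G := fun i _ l => ind c c i l * F i l)
      (h1.at 0 2) (fun i j l l' h => by
        have h3 : ind c c i l = ind c c i l' := by
          unfold ind
          rw [L.fine _ _ h]
        rw [h3, hFcl _ _ _ _ rfl h])
    have h3 : R1 θ K ψ := by
      refine h2.diag.congr fun i => ?_
      rw [hψ]
      refine Finset.prod_congr rfl fun q _ => ?_
      rw [ind_pos (he.mem i q).symm, one_mul]
    exact (hG.rat K hK hD').mul (IsR.zpow hp h3 z)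
  · have hD1 : On θ c' K (fun i l => w i l ^ m * (t l / t i)) := by
      refine (hfine hD).congr fun i l => ?_
      dsimp only
      by_cases h : c' i = c' l
      · rw [ind_pos h, hψcl i l h]
        have a1 : ψ l ^ z ≠ 0 := zpow_ne_zero _ (hψ0 l)
        have a2 := hG.ne i
        field_simp
      · rw [ind_neg h]
        simp
    have hD' := hG.back K hK hD1
    have hT := hG.rat K hK hD'
    have hwK := hw.mono hK
    have hρ : R2 θ K (fun i j => ∏ q, (F i (e i q) / (F j (e i q) * w i j))) := by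
      refine norm_rat hp hθ L hc he (K := K) (G := fun i j l => F i l / (F j l * w i j)) ?_
        (fun i j l l' h => by rw [hFcl i i l l' rfl h, hFcl j j l l' rfl h])
      have hFK := hFr K hK hD'
      have hg : IsR θ K (Fin 3) (fun x => w (x 0) (x 1) * w (x 1) (x 2) / w (x 0) (x 2)) :=
        hwK.gam
      refine (((hFK.at (0 : Fin 3) 2).div hp (hFK.at (1 : Fin 3) 2)).div hp hg).congr fun x => ?_
      have a1 := hwK.ne (x 0) (x 1)
      have a2 := hwK.ne (x 1) (x 2)
      have a3 := hwK.ne (x 0) (x 2)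
      have a4 := hF0 (x 1) (x 2)
      field_simp
    have hρ' : ∀ i j, c i = c j → ∏ q, (F i (e i q) / (F j (e i q) * w i j)) =
        ψ i / (ψ j * w i j ^ d) := by
      intro i j h
      rw [hψ, hψ, ← he.same i j h, Finset.prod_div_distrib, Finset.prod_mul_distrib,
        Finset.prod_const, Finset.card_univ, Fintype.card_fin]
    have h1 : R2 θ K (fun i l => ind c c i l * w i l ^ ((m : ℤ) - d * z)) := by
      have hρz : R2 θ K (fun i j => (∏ q, (F i (e i q) / (F j (e i q) * w i j))) ^ z) :=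
        IsR.zpow hp hρ z
      refine ((R2.mul hD hρz).mul (hT.left.div hp hT.right)).congr fun i l => ?_
      dsimp only
      by_cases h : c i = c l
      · rw [ind_pos h, hρ' i l h]
        have a0 : w i l ≠ 0 := hwK.ne i l
        have a1 : ψ l ^ z ≠ 0 := zpow_ne_zero _ (hψ0 l)
        have a2 : ψ i ^ z ≠ 0 := zpow_ne_zero _ (hψ0 i)
        have a3 := hG.ne i
        have a4 := hG.ne l
        have a5 : (w i l ^ d) ^ z ≠ 0 := zpow_ne_zero _ (pow_ne_zero _ a0)
        have a6 : w i l ^ ((d : ℤ) * z) = (w i l ^ d) ^ z := by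
          rw [zpow_mul, zpow_natCast]
        rw [zpow_sub₀ a0, zpow_natCast, a6, div_zpow, mul_zpow]
        field_simp
      · rw [ind_neg h]
        simp
    rcases hz with hz | hz
    · rw [hz] at h1
      refine h1.congr fun i l => ?_
      rw [zpow_one]
    · rw [hz] at h1
      refine (h1.inv hp).congr fun i l => ?_
      by_cases h : c i = c l
      · rw [ind_pos h]
        simp
      · rw [ind_neg h]
        simp

theorem TowA.exists_good [Infinite k] (hp : Pol k θ) (hθ : Function.Injective θ)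
    (hw : Coc θ w K₀) (hm : 1 ≤ m) (hT : TowA k θ m c) : ∃ t, Good θ w K₀ m c t := by
  induction hT with
  | @top c hc =>
    exact (Tow.top (k := k) (θ := θ) (m := m) hc).exists_good hp hθ hw hm
  | step L hmd _ _ ih =>
    obtain ⟨t, ht⟩ := ih
    exact good_step hp hθ L hw hm hmd ht
  | any L hmd hc _ ih =>
    obtain ⟨t, ht⟩ := ih
    exact good_any hp hθ L hc hw hmd ht

theorem lineMap_of_towA [Infinite k] {θ : Fin n → Ω} (hp : Pol k θ) (hθ : Function.Injective θ)
    {m : ℕ} (hm : 1 ≤ m) {c₀ : Ω} (hT : TowA k θ m (fun _ => c₀)) : LineMap k θ (m : ℤ) := by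
  intro K₀ w hw
  obtain ⟨t, ht⟩ := hT.exists_good hp hθ hw hm
  exact lineMap_of_good hp hθ hw ht

end Pool.Agent.H20.SXA
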