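import Pool.Agent.H20.SX.Xel

/-!
# The element of `M_r(C)`, from an element of `C`

`X₀` in `C` is annihilated by `f₀` of degree `D` with the distinct roots `θ₀ i`, and the powers
`X₀ ^ a`, `a < D`, are independent. The element `X` of `A = M_r(C)` is the diagonal matrix with the
entries `X₀ + κ s`, `s < r`.
-/

open Module Matrix

universe u

namespace Pool.Agent.H20.SXA

open Pool.Agent.H20.SX

variable {k Ω : Type u} [Field k] [Field Ω] [Algebra k Ω]

/-- A polynomial which vanishes at `X₀` is divisible by `f₀`. -/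
theorem dvd_of_indep {R : Type*} [Ring R] [Algebra k R] {D : ℕ} {X₀ : R} {f₀ g : Polynomial k}
    (hm : f₀.Monic) (hd : f₀.natDegree = D) (hX₀ : Polynomial.aeval X₀ f₀ = 0)
    (hi₀ : LinearIndependent k (fun a : Fin D => X₀ ^ (a : ℕ)))
    (hg : Polynomial.aeval X₀ g = 0) : f₀ ∣ g := by
  rw [← Polynomial.modByMonic_eq_zero_iff_dvd hm]
  have h1 : Polynomial.aeval X₀ (g %ₘ f₀) = 0 := by
    have h2 := congrArg (Polynomial.aeval X₀) (Polynomial.modByMonic_add_div g f₀)
    rw [map_add, map_mul, hX₀, zero_mul, add_zero, hg] at h2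
    exact h2
  rcases Nat.eq_zero_or_pos D with hD | hD
  · have h3 : f₀ = 1 := by
      rw [← hm.natDegree_eq_zero]
      omega
    rw [h3, Polynomial.modByMonic_one]
  · have hdeg : (g %ₘ f₀).natDegree < D := by
      rw [← hd]
      refine Polynomial.natDegree_modByMonic_lt g hm ?_
      rintro rfl
      simp at hd
      omega
    rw [Polynomial.aeval_eq_sum_range' hdeg, Finset.sum_range] at h1
    have h4 := Fintype.linearIndependent_iff.1 hi₀ _ h1
    ext a
    by_cases ha : a < D
    · rw [Polynomial.coeff_zero]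
      exact h4 ⟨a, ha⟩
    · rw [Polynomial.coeff_zero]
      exact Polynomial.coeff_eq_zero_of_natDegree_lt (by omega)

theorem aeval_pi'' {ι R : Type*} [Ring R] [Algebra k R] (y : ι → R) (f : Polynomial k) (s : ι) :
    Polynomial.aeval y f s = Polynomial.aeval (y s) f := by
  have h := Polynomial.aeval_algHom_apply (Pi.evalAlgHom k (fun _ : ι => R) s) y f
  exact h.symm

theorem exists_XA {D n r : ℕ} (hn : n = r * D) {A C : CSA.{u, u} k}
    (e : A ≃ₐ[k] Matrix (Fin r) (Fin r) C) {X₀ : C} {f₀ : Polynomial k} {θ₀ : Fin D → Ω}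
    (hf₀ : f₀.map (algebraMap k Ω) = ∏ j, (Polynomial.X - Polynomial.C (θ₀ j)))
    (hX₀ : Polynomial.aeval X₀ f₀ = 0)
    (hi₀ : LinearIndependent k (fun a : Fin D => X₀ ^ (a : ℕ))) (κ : Fin r → k)
    (ε : Fin n ≃ Fin r × Fin D) {θ : Fin n → Ω} (hθ : Function.Injective θ)
    (hθε : ∀ j, θ j = algebraMap k Ω (κ (ε j).1) + θ₀ (ε j).2) :
    ∃ (X : A) (f : Polynomial k), f.Monic ∧ f.natDegree = n ∧
      f.map (algebraMap k Ω) = ∏ j, (Polynomial.X - Polynomial.C (θ j)) ∧
      Polynomial.aeval X f = 0 ∧ LinearIndependent k (fun a : Fin n => X ^ (a : ℕ)) := by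
  classical
  have hm₀ : f₀.Monic := by
    have h1 : (f₀.map (algebraMap k Ω)).Monic := by
      rw [hf₀]
      exact Polynomial.monic_prod_of_monic _ _ fun j _ => Polynomial.monic_X_sub_C _
    exact Polynomial.monic_of_injective (algebraMap k Ω).injective h1
  have hd₀ : f₀.natDegree = D := by
    have h1 := congrArg Polynomial.natDegree hf₀
    rw [Polynomial.natDegree_map, Polynomial.natDegree_prod_of_monic _ _ fun j _ =>
      Polynomial.monic_X_sub_C _] at h1
    simpa using h1
  have hr₀ : ∀ j, Polynomial.aeval (θ₀ j) f₀ = 0 := by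
    intro j
    rw [← Polynomial.eval_map_algebraMap, hf₀, Polynomial.eval_prod]
    refine Finset.prod_eq_zero (Finset.mem_univ j) ?_
    simp
  let y : Fin r → C := fun s => X₀ + algebraMap k C (κ s)
  let f : Polynomial k := ∏ s, f₀.comp (Polynomial.X - Polynomial.C (κ s))
  let Ψ : (Fin r → C) →ₐ[k] A := e.symm.toAlgHom.comp (Matrix.diagonalAlgHom k)
  have hΨ : Function.Injective Ψ := by
    intro a b hab
    exact Matrix.diagonal_injective (e.symm.injective hab)
  have hfm : f.Monic := Polynomial.monic_prod_of_monic _ _ fun s _ => hm₀.comp_X_sub_C _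
  have hfd : f.natDegree = n := by
    rw [Polynomial.natDegree_prod_of_monic _ _ fun s _ => hm₀.comp_X_sub_C _]
    simp only [Polynomial.natDegree_comp, Polynomial.natDegree_X_sub_C, mul_one, hd₀,
      Finset.sum_const, Finset.card_univ, Fintype.card_fin, smul_eq_mul, hn]
  refine ⟨Ψ y, f, hfm, hfd, ?_, ?_, ?_⟩
  · refine eq_prod_of_roots (hfm.map _) ?_ hθ ?_
    · rw [Polynomial.natDegree_map, hfd]
    · intro j
      rw [Polynomial.eval_map_algebraMap, map_prod]
      refine Finset.prod_eq_zero (Finset.mem_univ (ε j).1) ?_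
      rw [Polynomial.aeval_comp, map_sub, Polynomial.aeval_X, Polynomial.aeval_C, hθε,
        add_sub_cancel_left]
      exact hr₀ _
  · rw [Polynomial.aeval_algHom_apply]
    have h1 : Polynomial.aeval y f = 0 := by
      funext s
      rw [aeval_pi'']
      have h2 : f₀.comp (Polynomial.X - Polynomial.C (κ s)) ∣ f :=
        Finset.dvd_prod_of_mem _ (Finset.mem_univ s)
      obtain ⟨q, hq⟩ := h2
      rw [hq, map_mul, Polynomial.aeval_comp, map_sub, Polynomial.aeval_X, Polynomial.aeval_C]
      change Polynomial.aeval (X₀ + algebraMap k C (κ s) - algebraMap k C (κ s)) f₀ * _ = 0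
      rw [add_sub_cancel_right, hX₀, zero_mul]
    rw [h1, map_zero]
  · have h1 : LinearIndependent k (fun a : Fin n => y ^ (a : ℕ)) := by
      rw [Fintype.linearIndependent_iff]
      intro c hc a
      let g : Polynomial k := ∑ a : Fin n, Polynomial.C (c a) * Polynomial.X ^ (a : ℕ)
      have hg : Polynomial.aeval y g = 0 := by
        rw [← hc]
        simp only [g, map_sum, map_mul, Polynomial.aeval_C, map_pow, Polynomial.aeval_X]
        refine Finset.sum_congr rfl fun a _ => ?_
        rw [Algebra.smul_def]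
      have hroot : ∀ j, (g.map (algebraMap k Ω)).eval (θ j) = 0 := by
        intro j
        have h2 : Polynomial.aeval (y (ε j).1) g = 0 := by
          rw [← aeval_pi'', hg]
          rfl
        have h3 : Polynomial.aeval X₀ (g.comp (Polynomial.X + Polynomial.C (κ (ε j).1))) = 0 := by
          rw [Polynomial.aeval_comp, map_add, Polynomial.aeval_X, Polynomial.aeval_C]
          exact h2
        obtain ⟨q, hq⟩ := dvd_of_indep hm₀ hd₀ hX₀ hi₀ h3
        have h4 := congrArg (Polynomial.aeval (θ₀ (ε j).2)) hq
        rw [map_mul, hr₀, zero_mul, Polynomial.aeval_comp, map_add, Polynomial.aeval_X,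
          Polynomial.aeval_C] at h4
        rw [Polynomial.eval_map_algebraMap, hθε, add_comm]
        exact h4
      have hgd : (g.map (algebraMap k Ω)).degree < n :=
        lt_of_le_of_lt Polynomial.degree_map_le (Polynomial.degree_sum_fin_lt _)
      have hg0 : g.map (algebraMap k Ω) = 0 := by
        by_contra hne
        have h5 : n ≤ (g.map (algebraMap k Ω)).natDegree := by
          have h6 : Finset.univ.image θ ⊆ (g.map (algebraMap k Ω)).roots.toFinset := by
            intro z hz
            obtain ⟨j, -, rfl⟩ := Finset.mem_image.1 hz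
            rw [Multiset.mem_toFinset, Polynomial.mem_roots hne]
            exact hroot j
          have h7 := Finset.card_le_card h6
          rw [Finset.card_image_of_injective _ hθ, Finset.card_univ, Fintype.card_fin] at h7
          exact h7.trans ((Multiset.toFinset_card_le _).trans (Polynomial.card_roots' _))
        rw [Polynomial.degree_eq_natDegree hne] at hgd
        exact absurd (WithBot.coe_lt_coe.1 hgd) (not_lt.2 h5)
      have hg1 : g = 0 := (Polynomial.map_eq_zero _).1 hg0
      have h8 : g.coeff (a : ℕ) = c a := by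
        simp only [g, Polynomial.finsetSum_coeff, Polynomial.coeff_C_mul, Polynomial.coeff_X_pow]
        rw [Finset.sum_eq_single a]
        · simp
        · intro b _ hb
          rw [if_neg fun h => hb (Fin.ext h.symm), mul_zero]
        · intro h
          exact absurd (Finset.mem_univ a) h
      rw [← h8, hg1, Polynomial.coeff_zero]
    have h2 := h1.map' Ψ.toLinearMap (LinearMap.ker_eq_bot.2 hΨ)
    have h3 : (fun a : Fin n => Ψ y ^ (a : ℕ)) = Ψ.toLinearMap ∘ fun a : Fin n => y ^ (a : ℕ) := by
      funext a
      exact (map_pow Ψ y _).symm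
    rw [h3]
    exact h2

end Pool.Agent.H20.SXA
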