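import Pool.Agent.H20.SXA.Fin
import Pool.Agent.H20.SXA.Xel
import Pool.Agent.H20.SXA.Cent
import Pool.Agent.H20.SXA.Blow
import Pool.Agent.H20.SXA.Fields
import Pool.Agent.H20.SXA.Line

/-!
# Algebras which contain a tower
-/

open Module Matrix

universe u

namespace Pool.Agent.H20.SXA

open Pool.Agent.H72.SB Pool.Agent.H49.Cyc Pool.Agent.H78.TT Pool.Agent.H72.TW Pool.Agent.H20.SX

/-- The roots of a monic polynomial. -/
theorem pol_of_roots {k Ω : Type*} [Field k] [Field Ω] [Algebra k Ω] {n : ℕ} {θ : Fin n → Ω}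
    {f : Polynomial k} (hf : f.Monic) (hd : f.natDegree = n)
    (hr : ∀ i, Polynomial.aeval (θ i) f = 0) : Pol k θ := by
  refine ⟨fun b => - f.coeff b, fun i => ?_⟩
  have h1 := hr i
  rw [Polynomial.aeval_eq_sum_range, hd, Finset.sum_range_succ, ← hd, hf.coeff_natDegree,
    one_smul, hd, add_comm] at h1
  rw [eq_neg_of_add_eq_zero_left h1, Finset.sum_range, ← Finset.sum_neg_distrib]
  refine Finset.sum_congr rfl fun b _ => ?_
  rw [map_neg, neg_mul, Algebra.smul_def]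

/-- The polynomial with the roots `κ s + θ₀ j`. -/
theorem exists_polyA {k Ω : Type*} [Field k] [Field Ω] [Algebra k Ω] {D : ℕ} {θ₀ : Fin D → Ω}
    {f₀ : Polynomial k} (hm₀ : f₀.Monic) (hd₀ : f₀.natDegree = D)
    (hr₀ : ∀ j, Polynomial.aeval (θ₀ j) f₀ = 0) {r : ℕ} (κ : Fin r → k) :
    ∃ f : Polynomial k, f.Monic ∧ f.natDegree = r * D ∧
      ∀ (s : Fin r) (j : Fin D), Polynomial.aeval (algebraMap k Ω (κ s) + θ₀ j) f = 0 := by
  refine ⟨∏ s, f₀.comp (Polynomial.X - Polynomial.C (κ s)), ?_, ?_, fun s e => ?_⟩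
  · exact Polynomial.monic_prod_of_monic _ _ fun s _ => hm₀.comp_X_sub_C _
  · rw [Polynomial.natDegree_prod_of_monic _ _ fun s _ => hm₀.comp_X_sub_C _]
    simp only [Polynomial.natDegree_comp, Polynomial.natDegree_X_sub_C, mul_one, hd₀,
      Finset.sum_const, Finset.card_univ, Fintype.card_fin, smul_eq_mul]
  · rw [map_prod]
    refine Finset.prod_eq_zero (Finset.mem_univ s) ?_
    rw [Polynomial.aeval_comp, map_sub, Polynomial.aeval_X, Polynomial.aeval_C,
      add_sub_cancel_left, hr₀]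

variable {k : Type u} [Field k] {n : ℕ}

/-- `A = M_r(C)`, `C` of degree `D` contains the field `E`, `D = d [E : k]`. -/
theorem hasLine_towerP [Infinite k] {A C : CSA.{u, u} k} (hA : finrank k A = n ^ 2) {d : ℕ}
    {E : Type u} [Field E] [Algebra k E] (hC : finrank k C = (d * finrank k E) ^ 2)
    [Algebra.IsSeparable k E] {P : ℕ → Prop} (hT : IsTowerP k E P) (φ : E →ₐ[k] C) (hd : P d)
    {r : ℕ} (e : A ≃ₐ[k] Matrix (Fin r) (Fin r) C) {m : ℕ} (hm : 1 ≤ m) (hmn : Good n P m) :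
    HasLine A n (m : ℤ) := by
  intro Ω _ _ _
  have hd0 : d * finrank k E ≠ 0 := ne_zero_of_finrank hC
  have hfin : FiniteDimensional k E :=
    FiniteDimensional.of_finrank_pos (Nat.pos_of_ne_zero (right_ne_zero_of_mul hd0))
  have hn : n = r * (d * finrank k E) := by
    have h1 := e.toLinearEquiv.finrank_eq
    rw [Module.finrank_matrix, Fintype.card_fin, hA, hC] at h1
    have h2 : n ^ 2 = (r * (d * finrank k E)) ^ 2 := by rw [h1]; ring
    exact Nat.pow_left_injective (n := 2) (by norm_num) h2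
  obtain ⟨α, hα⟩ := Field.exists_primitive_element k E
  obtain ⟨X₀, f₀, θ₀, ε₀, hθ₀, hf₀, hX₀, hi₀, hε₀, hr₀, hfib⟩ := exists_cent (Ω := Ω) hC φ hα
  have hm₀ : f₀.Monic := by
    have h1 : (f₀.map (algebraMap k Ω)).Monic := by
      rw [hf₀]
      exact Polynomial.monic_prod_of_monic _ _ fun j _ => Polynomial.monic_X_sub_C _
    exact Polynomial.monic_of_injective (algebraMap k Ω).injective h1
  have hd₀ : f₀.natDegree = d * finrank k E := by
    have h1 := congrArg Polynomial.natDegree hf₀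
    rw [Polynomial.natDegree_map, Polynomial.natDegree_prod_of_monic _ _ fun j _ =>
      Polynomial.monic_X_sub_C _] at h1
    simpa using h1
  have hroot : ∀ j, Polynomial.aeval (θ₀ j) f₀ = 0 := by
    intro j
    rw [← Polynomial.eval_map_algebraMap, hf₀, Polynomial.eval_prod]
    refine Finset.prod_eq_zero (Finset.mem_univ j) ?_
    simp
  have hpol₀ : Pol k θ₀ := pol_of_roots hm₀ hd₀ hroot
  have hmr : m.Coprime r := hmn.1.coprime_dvd_right ⟨_, hn⟩
  have hEn : finrank k E ∣ n := ⟨r * d, by rw [hn]; ring⟩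
  have hdn : d ∣ n := ⟨r * finrank k E, by rw [hn]; ring⟩
  have hfib' : ∀ e, Set.ncard {i | ε₀ i = e} = d := fun e =>
    Nat.eq_of_mul_eq_mul_right (Nat.pos_of_ne_zero (right_ne_zero_of_mul hd0)) (hfib e)
  have hT₀ : TowA k θ₀ m (fun _ => 0) :=
    towA_of_tower (hmn.1.coprime_dvd_right hEn) (fun x hx hP => hmn.2 x (hx.trans hEn) hP) hT hα
      hθ₀ hε₀ hr₀ hfib' (hmn.2 d hdn hd)
  obtain ⟨B, hB, hblow⟩ := towA_blow (n := n) hpol₀ hθ₀ hmr hT₀
  obtain ⟨κ, hκ⟩ := exists_kappa (k := k) hB r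
  let ε₂ : Fin n ≃ Fin r × Fin (d * finrank k E) := (finCongr hn).trans finProdFinEquiv.symm
  have hpol : Pol k (fun j => algebraMap k Ω (κ (ε₂ j).1) + θ₀ (ε₂ j).2) := by
    obtain ⟨f, hf, hfd, hfr⟩ := exists_polyA (Ω := Ω) hm₀ hd₀ hroot κ
    exact pol_of_roots hf (by rw [hfd, hn]) fun j => hfr (ε₂ j).1 (ε₂ j).2
  obtain ⟨hθ, hTow⟩ := hblow κ hκ ε₂ hpol
  obtain ⟨X, f, -, -, hf, hX, hi⟩ := exists_XA hn e hf₀ hX₀ hi₀ κ ε₂ hθ fun j => rfl
  obtain ⟨v, h, hiso⟩ := exists_dat_of hA hθ hf hX hi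
  exact ⟨_, v, h, hiso, lineMap_of_towA h.pol h.inj hm hTow⟩

theorem same_iff_towerP {A B C : CSA.{u, u} k} {m d : ℕ} (hA : finrank k A = n ^ 2)
    (hB : finrank k B = n ^ 2) {E : Type u} [Field E] [Algebra k E]
    (hC : finrank k C = (d * finrank k E) ^ 2) [Algebra.IsSeparable k E] {i j : ℤ}
    (hT : IsTowerP k E (PM i)) (φ : E →ₐ[k] C) (hd : PM i d) {r : ℕ}
    (e : A ≃ₐ[k] Matrix (Fin r) (Fin r) C) (hAB : IsMultiple A i B)
    (hBA : IsMultiple B j A) (hm : 1 ≤ m) (hmn : m < n) (hg : PM i (Nat.gcd m n)) :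
    (∃ (F : Type u) (_ : Field F) (_ : Algebra k F), IsFunctionField A m F ∧
      IsFunctionField B m F) ∧
    ∀ (F : Type u) [Field F] [Algebra k F], IsFunctionField A m F ↔ IsFunctionField B m F := by
  refine same_iff_SA hA hB hm hmn (fun _ s hs => ?_) hAB hBA hg
  refine hasLine_towerP hA hC hT φ hd e ?_ hs
  rcases Nat.eq_zero_or_pos s with rfl | h
  · have := hs.1
    rw [Nat.coprime_zero_left] at this
    omega
  · exact h

end Pool.Agent.H20.SXA
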